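import Pool.Agent.K3h74.SZ.Stm

namespace Pool.Agent.K3h74.SZ

open Polynomial Pool.Agent.W318 Finset NumberField IsDedekindDomain WithZero Filter

open Pool.Agent.Y678.SZ (val_nat_le_one val_one_or exists_prime_of_val val_lt_of_dvd disc_lower
  bad_upper one_le_badNorm val_squarefree exists_num disc_act_val)

/-- The parameter `Z / Y`. -/
noncomputable def tt (K : Type*) [Field K] (Y T : ℕ) : K := ((Y : K) + T) / Y

/-- The form. -/
noncomputable def frK (K : Type*) [Field K] (k δ ε e : ℕ) (Q : ℤ[X][X]) (Y T w : ℕ) : K[X] :=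
  frm k δ ε (Q.map (sp (tt K Y T))) ((Y : K) ^ e) (w : K)

theorem map_tt {K L : Type*} [Field K] [Field L] (f : K →+* L) (Y T : ℕ) :
    f (tt K Y T) = tt L Y T := by
  simp [tt]

theorem map_frK {K L : Type*} [Field K] [Field L] (f : K →+* L) (k δ ε e : ℕ) (Q : ℤ[X][X])
    (Y T w : ℕ) : (frK K k δ ε e Q Y T w).map f = frK L k δ ε e Q Y T w := by
  unfold frK frm
  rw [frmB_map, base_map, Polynomial.map_map, sp_map, map_tt]
  simp

/-- All the data. -/
structure Fam (k δ ε e : ℕ) (Q : ℤ[X][X]) (c0 : ℤ) (b c : ℕ) : Prop where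
  hk : 1 ≤ k
  hδ : δ + ε = 1
  he : 1 ≤ e
  adm : Adm k e Q
  hc0 : c0 ≠ 0
  sqf : ∀ t : ℂ, t ≠ 0 → t ≠ 1 → Squarefree ((base k δ (Q.map (sp t))).comp (X ^ 2))
  disc : ∀ (F : Type) [Field F] [CharZero F] (t : F),
    ((base k δ (Q.map (sp t))).comp (X ^ 2)).discr = c0 * (t ^ b * (t - 1) ^ c)
  fac : S_FAC
  twi : S_TWI
  val : S_VAL

section

variable {k δ ε e : ℕ} {Q : ℤ[X][X]} {c0 : ℤ} {b c : ℕ}

variable {K : Type} [Field K] [NumberField K]

theorem Fam.sqfK (H : Fam k δ ε e Q c0 b c) {t : K} (h0 : t ≠ 0) (h1 : t ≠ 1) :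
    Squarefree ((base k δ (Q.map (sp t))).comp (X ^ 2)) := by
  obtain ⟨φ⟩ : Nonempty (K →+* ℂ) := inferInstance
  have h2 := H.sqf (φ t) (by rwa [Ne, map_eq_zero]) (by
    intro h; apply h1; apply φ.injective; rw [h, map_one])
  have h3 : ((base k δ (Q.map (sp t))).comp (X ^ 2)).map φ =
      (base k δ (Q.map (sp (φ t)))).comp (X ^ 2) := by
    rw [Polynomial.map_comp, base_map, Polynomial.map_map, sp_map]
    simp
  rw [← h3, ← PerfectField.separable_iff_squarefree, Polynomial.separable_map] at h2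
  exact h2.squarefree

theorem tt_ne_zero {Y T : ℕ} (hY : 0 < Y) : tt K Y T ≠ 0 := by
  have hY' : (Y : K) ≠ 0 := Nat.cast_ne_zero.mpr hY.ne'
  have hYT : (Y : K) + T ≠ 0 := by exact_mod_cast (by omega : Y + T ≠ 0)
  exact div_ne_zero hYT hY'

theorem tt_sub_one {Y T : ℕ} (hY : 0 < Y) : tt K Y T - 1 = (T : K) / Y := by
  have hY' : (Y : K) ≠ 0 := Nat.cast_ne_zero.mpr hY.ne'
  unfold tt
  field_simp
  ring

theorem tt_ne_one {Y T : ℕ} (hY : 0 < Y) (hT : 0 < T) : tt K Y T ≠ 1 := by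
  have hY' : (Y : K) ≠ 0 := Nat.cast_ne_zero.mpr hY.ne'
  have hT' : (T : K) ≠ 0 := Nat.cast_ne_zero.mpr hT.ne'
  intro h
  have := tt_sub_one (K := K) (Y := Y) (T := T) hY
  rw [h, sub_self] at this
  exact div_ne_zero hT' hY' this.symm

theorem Fam.valF (H : Fam k δ ε e Q c0 b c) {Y T w : ℕ} (hY : 0 < Y) (hT : 0 < T) (hw : 0 < w)
    (v : HeightOneSpectrum (𝓞 K)) :
    GoodForm (2 * k + δ) (frK K k δ ε e Q Y T w) ∧
    (frK K k δ ε e Q Y T w).natDegree = 2 * k + δ + (2 * k + δ) ∧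
    v.valuation K (discN (2 * k + δ + (2 * k + δ)) (frK K k δ ε e Q Y T w)) =
      v.valuation K ((w : K) ^ ((2 * k + δ + (2 * k + δ) - 1) * (2 * ε + (2 * k + δ))) *
        ((Y : K) ^ e) ^ (2 * (2 * k + δ + (2 * k + δ) - 1)) *
        (c0 * (tt K Y T ^ b * (tt K Y T - 1) ^ c))) := by
  have hY' : (Y : K) ≠ 0 := Nat.cast_ne_zero.mpr hY.ne'
  have hw' : (w : K) ≠ 0 := Nat.cast_ne_zero.mpr hw.ne'
  have hm := H.adm.monic.map (sp (tt K Y T))
  have hd : (Q.map (sp (tt K Y T))).natDegree = k := by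
    rw [H.adm.monic.natDegree_map, H.adm.deg]
  have := H.val K v (2 * k + δ) ε (base k δ (Q.map (sp (tt K Y T)))) ((Y : K) ^ e) w
    (by have := H.hk; omega) (base_monic k δ _ hm hd) (base_natDegree k δ _ hm hd)
    (pow_ne_zero _ hY') hw' (H.sqfK (tt_ne_zero hY) (tt_ne_one hY hT))
  rw [H.disc] at this
  exact this

theorem val_sp {v : HeightOneSpectrum (𝓞 K)} {t : K} (ht : v.valuation K t ≤ 1) (p : ℤ[X]) :
    v.valuation K (sp t p) ≤ 1 := by
  have h1 := congrArg (fun f : ℤ[X] →+* K => f p)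
    (sp_map (v.valuation K).integer.subtype (⟨t, ht⟩ : (v.valuation K).integer))
  simp only [RingHom.coe_comp, Function.comp_apply, Subring.subtype_apply] at h1
  rw [← h1]
  exact (sp (⟨t, ht⟩ : (v.valuation K).integer) p).2

theorem int_frK {Y T w : ℕ} {v : HeightOneSpectrum (𝓞 K)}
    (hY : v.valuation K (Y : K) = 1) (i : ℕ) :
    v.valuation K ((frK K k δ ε e Q Y T w).coeff i) ≤ 1 := by
  have ht : v.valuation K (tt K Y T) ≤ 1 := by
    rw [tt, map_div₀, hY, div_one]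
    refine (Valuation.map_add _ _ _).trans (max_le ?_ ?_) <;> exact val_nat_le_one v _
  set O := (v.valuation K).integer with hO
  set t' : O := ⟨tt K Y T, ht⟩ with ht'
  set y' : O := ⟨(Y : K) ^ e, by
    rw [hO, Valuation.mem_integer_iff, map_pow, hY, one_pow]⟩ with hy'
  set w' : O := ⟨(w : K), val_nat_le_one v w⟩ with hw'
  have h1 : frK K k δ ε e Q Y T w = (frm k δ ε (Q.map (sp t')) y' w').map O.subtype := by
    unfold frK frm
    rw [frmB_map, base_map, Polynomial.map_map, sp_map]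
    rfl
  rw [h1, coeff_map]
  exact ((frm k δ ε (Q.map (sp t')) y' w').coeff i).2

end

/-- The exponent. -/
def E0 (g ε e : ℕ) : ℕ := (2 * g + 1) * (2 * ε + (g + 1)) + 2 * (e * (2 * g + 1))

/-- The exponent of `Y`. -/
def aa (g e b c : ℕ) : ℕ := 2 * (e * (2 * g + 1)) - (b + c)

/-- The size of the discriminant. -/
def DD (g ε e b c Y T w : ℕ) : ℕ :=
  w ^ ((2 * g + 1) * (2 * ε + (g + 1))) * (Y ^ aa g e b c * ((Y + T) ^ b * T ^ c))

/-- The constant. -/
def C0 (g : ℕ) : ℕ := 2 ^ (4 * g + 4) * (16 ^ (g + 1)) ^ (2 * (g + 1 + (g + 1) - 1))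

section

variable {k δ ε e : ℕ} {Q : ℤ[X][X]} {c0 : ℤ} {b c : ℕ}

variable {K : Type} [Field K] [NumberField K]

theorem Fam.isHyp (H : Fam k δ ε e Q c0 b c) {g : ℕ} (hgk : 2 * k + δ = g + 1) {Y T w : ℕ}
    (hY : 0 < Y) (hT : 0 < T) (hw : 0 < w) : IsHyp g (frK K k δ ε e Q Y T w) := by
  obtain ⟨p, hp0, hp⟩ := Ring.not_isField_iff_exists_prime.mp
    (NumberField.RingOfIntegers.not_isField K)
  let v : HeightOneSpectrum (𝓞 K) := ⟨p, hp, hp0⟩
  obtain ⟨h1, h2, -⟩ := H.valF (K := K) hY hT hw v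
  exact ⟨h1.1, Or.inr (by rw [h2]; omega)⟩

theorem val_int_le_one (v : HeightOneSpectrum (𝓞 K)) (z : ℤ) : v.valuation K (z : K) ≤ 1 := by
  have e : algebraMap (𝓞 K) K (z : 𝓞 K) = (z : K) := map_intCast _ z
  rw [← e]
  exact v.valuation_le_one _

theorem Fam.valDD (H : Fam k δ ε e Q c0 b c) {g : ℕ} (hgk : 2 * k + δ = g + 1) {Y T w : ℕ}
    (hY : 0 < Y) (hT : 0 < T) (hw : 0 < w) (v : HeightOneSpectrum (𝓞 K))
    (hc : v.valuation K (Y : K) = 1 ∨ b + c ≤ 2 * (e * (2 * g + 1))) :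
    v.valuation K (discN (g + 1 + (g + 1)) (frK K k δ ε e Q Y T w)) =
      v.valuation K (c0 : K) * v.valuation K (DD g ε e b c Y T w : K) := by
  obtain ⟨-, -, h1⟩ := H.valF (K := K) hY hT hw v
  have hY' : (Y : K) ≠ 0 := Nat.cast_ne_zero.mpr hY.ne'
  rw [hgk] at h1
  have e1 : g + 1 + (g + 1) - 1 = 2 * g + 1 := by omega
  rw [e1, tt_sub_one hY, tt] at h1
  rw [h1, DD]
  rcases hc with hc | hc
  · push_cast
    simp only [map_mul, map_pow, map_div₀, hc, one_pow, div_one, mul_one, one_mul]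
    exact mul_left_comm _ _ _
  · rw [← map_mul]
    congr 1
    have e2 : ((Y : K) ^ e) ^ (2 * (2 * g + 1)) = (Y : K) ^ aa g e b c * ((Y : K) ^ b *
        (Y : K) ^ c) := by
      rw [← pow_mul, ← pow_add, ← pow_add]
      congr 1
      have : aa g e b c + (b + c) = 2 * (e * (2 * g + 1)) := by
        unfold aa; omega
      rw [this]; ring
    rw [e2]
    push_cast
    rw [div_pow, div_pow]
    field_simp

theorem valDD_one {g ε e b c : ℕ} {Y T w : ℕ} (hcop : Nat.Coprime Y T)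
    (v : HeightOneSpectrum (𝓞 K)) (hwT : v.valuation K (w : K) ≠ 1 → v.valuation K (T : K) < 1)
    (hY : v.valuation K (Y : K) ≠ 1) (hbc : ¬ b + c ≤ 2 * (e * (2 * g + 1))) :
    v.valuation K (DD g ε e b c Y T w : K) = 1 := by
  have hT1 : v.valuation K (T : K) = 1 := (val_one_or hcop v).resolve_left hY
  have hw1 : v.valuation K (w : K) = 1 := by
    by_contra h
    exact (hwT h).ne hT1
  have hZ : v.valuation K ((Y : K) + T) = 1 := by
    have hY1 := lt_of_le_of_ne (val_nat_le_one v Y) hY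
    rw [Valuation.map_add_eq_of_lt_right _ (by rw [hT1]; exact hY1), hT1]
  have ha : aa g e b c = 0 := by unfold aa; omega
  rw [DD, ha]
  push_cast
  simp [hT1, hw1, hZ]

theorem Fam.place_ineq (H : Fam k δ ε e Q c0 b c) {g : ℕ} (hgk : 2 * k + δ = g + 1) (hg : 2 ≤ g)
    {Y T w : ℕ} (hY : 0 < Y) (hT : 0 < T) (hw : 0 < w)
    (hcop : Nat.Coprime Y T) (v : HeightOneSpectrum (𝓞 K))
    (hwT : v.valuation K (w : K) ≠ 1 →
      v.valuation K (w : K) = exp (-1) ∧ v.valuation K (T : K) < 1) :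
    exp (-((minExp g (frK K k δ ε e Q Y T w) v : ℕ) : ℤ)) * v.valuation K (C0 g : K) ≤
      v.valuation K (DD g ε e b c Y T w : K) := by
  by_cases hcase : v.valuation K (Y : K) = 1 ∨ b + c ≤ 2 * (e * (2 * g + 1))
  swap
  · push Not at hcase
    rw [valDD_one hcop v (fun h => (hwT h).2) hcase.1 (by omega)]
    refine mul_le_one' ?_ (val_nat_le_one v _)
    rw [← exp_zero, exp_le_exp]
    omega
  have hdisc := H.valDD hgk hY hT hw v hcase
  have hF := H.isHyp (K := K) hgk hY hT hw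
  have hY' : (Y : K) ≠ 0 := Nat.cast_ne_zero.mpr hY.ne'
  refine le_trans ?_ (mul_le_of_le_one_left' (val_int_le_one v c0))
  rw [← hdisc]
  obtain ⟨f, f₂, hM, hn⟩ := exists_min_model hF v
  obtain ⟨φ⟩ := hM.iso
  have hbr := bridge hg hF.1 hF.2 hM.upper φ
  have hint := int_comb v hM.int hM.int₂
  have hgood' : GoodForm (g + 1) (4 * f + f₂ ^ 2) := hbr.good (by omega) hF.good
  have h4 : (1 / 4 : K) ≠ 0 := by norm_num
  rw [modelDisc_eq, four_mul_form, discN_C_mul (by omega) h4 hgood'.2] at hn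
  rw [← hn, ← map_mul]
  have e1 : (2 : K) ^ (4 * g) * ((1 / 4) ^ (2 * (g + 1 + (g + 1) - 1)) *
      discN (g + 1 + (g + 1)) (4 * f + f₂ ^ 2)) * (C0 g : K) =
      discN (g + 1 + (g + 1)) (4 * f + f₂ ^ 2) *
        (16 ^ (g + 1)) ^ (2 * (g + 1 + (g + 1) - 1)) := by
    have e2 : (2 : K) ^ (4 * g) * 2 ^ (4 * g + 4) = 4 ^ (2 * (g + 1 + (g + 1) - 1)) := by
      rw [← pow_add, show (4 : K) = 2 ^ 2 by norm_num, ← pow_mul]
      congr 1
      omega
    have e3 : (1 / 4 : K) ^ (2 * (g + 1 + (g + 1) - 1)) * 4 ^ (2 * (g + 1 + (g + 1) - 1)) = 1 := by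
      rw [← mul_pow]; norm_num
    unfold C0
    push_cast
    calc _ = ((1 / 4 : K) ^ (2 * (g + 1 + (g + 1) - 1)) * (2 ^ (4 * g) * 2 ^ (4 * g + 4))) *
          (discN (g + 1 + (g + 1)) (4 * f + f₂ ^ 2) *
          (16 ^ (g + 1)) ^ (2 * (g + 1 + (g + 1) - 1))) := by ring
      _ = _ := by rw [e2, e3, one_mul]
  rw [e1]
  obtain ⟨a', b', c', d', l, hdet, hl, hF'⟩ := hbr
  rw [hF'] at hint ⊢
  have hm := H.adm.monic.map (sp (tt K Y T))
  have hd : (Q.map (sp (tt K Y T))).natDegree = k := by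
    rw [H.adm.monic.natDegree_map, H.adm.deg]
  by_cases hw1 : v.valuation K (w : K) = 1
  · -- the untwisted places
    have hδ := H.hδ
    have key := H.fac K v k δ ε (Q.map (sp (tt K Y T))) ((Y : K) ^ e) w H.hk (by omega) hm hd
      (H.sqfK (tt_ne_zero hY) (tt_ne_one hY hT)) (pow_ne_zero _ hY') hw1 ?_ a' b' c' d' l hdet hl
    · rw [hgk] at key
      exact key hint
    · by_cases hY1 : v.valuation K (Y : K) = 1
      · left; rw [map_pow, hY1, one_pow]
      · right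
        have hT1 : v.valuation K (T : K) = 1 := (val_one_or hcop v).resolve_left hY1
        have hZ : v.valuation K ((Y : K) + T) = 1 := by
          have hY1 := lt_of_le_of_ne (val_nat_le_one v Y) hY1
          rw [Valuation.map_add_eq_of_lt_right _ (by rw [hT1]; exact hY1), hT1]
        have h0 : v.valuation K ((Q.map (sp (tt K Y T))).coeff 0) =
            v.valuation K (tt K Y T) ^ e := by
          rw [coeff_map]
          rcases H.adm.zero with h | h
          · rw [h, map_pow, sp_X, map_pow]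
          · rw [h, map_neg, map_pow, sp_X, Valuation.map_neg, map_pow]
        rw [map_mul, h0, map_pow, ← mul_pow, ← map_mul, tt, mul_div_cancel₀ _ hY', hZ, one_pow]
  · -- the twisted places
    obtain ⟨hw2, hT1⟩ := hwT hw1
    have hY1 : v.valuation K (Y : K) = 1 := (val_one_or hcop v).resolve_right hT1.ne
    have ht : v.valuation K (tt K Y T) ≤ 1 := by
      rw [tt, map_div₀, hY1, div_one]
      refine (Valuation.map_add _ _ _).trans (max_le ?_ ?_) <;> exact val_nat_le_one v _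
    have h6 := disc_act_val (by omega : 2 ≤ g + 1) hF.good v hdet hl
    have h7 : v.valuation K (l ^ 2 * (a' * d' - b' * c') ^ (g + 1)) ≤ 1 := by
      have := H.twi K v k δ ε (Q.map (sp (tt K Y T))) ((Y : K) ^ e) w H.hk H.hδ hm hd
        (fun i => by rw [coeff_map]; exact val_sp ht _) (by rw [map_pow, hY1, one_pow]) hw2
        a' b' c' d' l hdet hl
      rw [hgk] at this
      exact this hint
    have h8 : v.valuation K (((16 : K) ^ (g + 1)) ^ (2 * (g + 1 + (g + 1) - 1))) ≤ 1 := by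
      rw [map_pow]
      apply pow_le_one'
      have : ((16 : K) ^ (g + 1)) = ((16 ^ (g + 1) : ℕ) : K) := by
        push_cast; ring
      rw [this]
      exact val_nat_le_one v _
    rw [map_mul, h6, map_mul, map_pow]
    calc _ ≤ (1 * v.valuation K (discN (g + 1 + (g + 1)) (frK K k δ ε e Q Y T w))) * 1 := by
          refine mul_le_mul' (mul_le_mul_left (pow_le_one' h7 _) _) h8
      _ = _ := by rw [one_mul, mul_one]

/-- The places of bad reduction. -/
theorem Fam.bad_place (H : Fam k δ ε e Q c0 b c) {g : ℕ} (hgk : 2 * k + δ = g + 1)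
    {Y T w : ℕ} (hY : 0 < Y) (hT : 0 < T) (hw : 0 < w)
    (v : HeightOneSpectrum (𝓞 K)) (hv : minExp g (frK K k δ ε e Q Y T w) v ≠ 0) :
    v.valuation K ((2 * (c0.natAbs * (w * (Y * (T * (Y + T))))) : ℕ) : K) < 1 := by
  have hF := H.isHyp (K := K) hgk hY hT hw
  by_contra hcon
  have h1 : v.valuation K ((2 * (c0.natAbs * (w * (Y * (T * (Y + T))))) : ℕ) : K) = 1 :=
    le_antisymm (val_nat_le_one v _) (not_lt.mp hcon)
  have key : ∀ m : ℕ, m ∣ 2 * (c0.natAbs * (w * (Y * (T * (Y + T))))) →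
      v.valuation K (m : K) = 1 := by
    rintro m ⟨u, hu⟩
    refine le_antisymm (val_nat_le_one v _) ?_
    rw [← h1, hu, Nat.cast_mul, map_mul]
    exact mul_le_of_le_one_right' (val_nat_le_one v _)
  have h2 := key 2 (dvd_mul_right _ _)
  have hc := key c0.natAbs ((dvd_mul_right _ _).mul_left _)
  have hw1 := key w (((dvd_mul_right _ _).mul_left _).mul_left _)
  have hY1 := key Y ((((dvd_mul_right _ _).mul_left _).mul_left _).mul_left _)
  have hT1 := key T (((((dvd_mul_right _ _).mul_left _).mul_left _).mul_left _).mul_left _)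
  have hZ1 := key (Y + T) (((((dvd_mul_left _ _).mul_left _).mul_left _).mul_left _).mul_left _)
  have hc1 : v.valuation K (c0 : K) = 1 := by
    rcases Int.natAbs_eq c0 with h | h
    · rw [h, Int.cast_natCast]; exact hc
    · rw [h, Int.cast_neg, Int.cast_natCast, Valuation.map_neg]; exact hc
  have h3 : v.valuation K ((DD g ε e b c Y T w : ℕ) : K) = 1 := by
    rw [DD]
    push_cast at hZ1 ⊢
    simp [hw1, hY1, hT1, hZ1]
  have hd : (frK K k δ ε e Q Y T w).natDegree ≤ g + 1 + (g + 1) := by have := hF.2; omega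
  have hdisc := H.valDD hgk hY hT hw v (Or.inl hY1)
  rw [hc1, h3, one_mul] at hdisc
  obtain ⟨n, hn, _, hle⟩ := minExp_le hF v (Eqv.refl hd) (int_frK hY1) (t := 0)
    (by
      have : ((2 : ℕ) : K) = 2 := by norm_num
      rw [this] at h2
      rw [h2]; simp)
  rw [hdisc, ← exp_zero, exp_inj] at hn
  apply hv
  have : n = 0 := by omega
  rw [this] at hle
  simpa using hle

end

theorem DD_lower {g ε e b c Y T w E : ℕ} (he : 1 ≤ e) (hT : 0 < T) (h1 : w * E ≤ T)
    (h2 : T ≤ 7 * Y) : w ^ E0 g ε e * E ≤ 7 ^ aa g e b c * DD g ε e b c Y T w := by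
  have hpos : 1 ≤ 2 * (e * (2 * g + 1)) := by
    have : 1 ≤ e * (2 * g + 1) := Nat.one_le_iff_ne_zero.mpr (by positivity)
    omega
  have e1 : T ^ aa g e b c ≤ 7 ^ aa g e b c * Y ^ aa g e b c := by
    rw [← mul_pow]; exact Nat.pow_le_pow_left h2 _
  have e2 : T ^ b ≤ (Y + T) ^ b := Nat.pow_le_pow_left (by omega) _
  have e3 : T ^ (2 * (e * (2 * g + 1))) ≤ T ^ (aa g e b c + (b + c)) :=
    Nat.pow_le_pow_right hT (by unfold aa; omega)
  have e4 : (w * E) ^ (2 * (e * (2 * g + 1))) ≤ T ^ (2 * (e * (2 * g + 1))) :=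
    Nat.pow_le_pow_left h1 _
  have e5 : E ≤ E ^ (2 * (e * (2 * g + 1))) := Nat.le_self_pow (by omega) E
  set κ' := (2 * g + 1) * (2 * ε + (g + 1)) with hκ'
  calc w ^ E0 g ε e * E = w ^ κ' * (w ^ (2 * (e * (2 * g + 1))) * E) := by
        rw [E0, pow_add]; ring
    _ ≤ w ^ κ' * (w ^ (2 * (e * (2 * g + 1))) * E ^ (2 * (e * (2 * g + 1)))) := by gcongr
    _ = w ^ κ' * (w * E) ^ (2 * (e * (2 * g + 1))) := by rw [mul_pow]
    _ ≤ w ^ κ' * T ^ (2 * (e * (2 * g + 1))) := by gcongr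
    _ ≤ w ^ κ' * T ^ (aa g e b c + (b + c)) := by gcongr
    _ = w ^ κ' * (T ^ aa g e b c * (T ^ b * T ^ c)) := by rw [pow_add, pow_add]
    _ ≤ w ^ κ' * ((7 ^ aa g e b c * Y ^ aa g e b c) * ((Y + T) ^ b * T ^ c)) := by gcongr
    _ = 7 ^ aa g e b c * DD g ε e b c Y T w := by unfold DD; ring

section

variable {k δ ε e : ℕ} {Q : ℤ[X][X]} {c0 : ℤ} {b c : ℕ}

/-- The comparison over one number field. -/
theorem Fam.compare (H : Fam k δ ε e Q c0 b c) {K : Type} [Field K] [NumberField K] {g : ℕ}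
    (hgk : 2 * k + δ = g + 1) (hg : 2 ≤ g) {Y T w j E : ℕ}
    (hY : 0 < Y) (hT : 0 < T) (hw : 0 < w) (hcop : Nat.Coprime Y T) (hsq : Squarefree w)
    (hwj : ∀ p : ℕ, p.Prime → p ∣ w → j < p) (hwT : ∀ p : ℕ, p.Prime → p ∣ w → p ∣ T)
    (hbad : ∀ p : ℕ, p.Prime → p ∣ Y * (T * (Y + T)) → p ∣ 6 * j.factorial * w)
    (h1 : w * E ≤ T) (h2 : T ≤ 7 * Y) (hj : (discr K).natAbs ≤ j)
    (hEj : j.factorial ^ E0 g ε e * j ≤ E) :
    j ^ Module.finrank ℚ K * badNorm g (frK K k δ ε e Q Y T w) ^ E0 g ε e ≤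
      ((6 * c0.natAbs) ^ E0 g ε e * 7 ^ aa g e b c * C0 g) ^ Module.finrank ℚ K *
        discNorm g (frK K k δ ε e Q Y T w) := by
  have hF := H.isHyp (K := K) hgk hY hT hw
  have hDD0 : DD g ε e b c Y T w ≠ 0 := by unfold DD; positivity
  have hC0 : C0 g ≠ 0 := by unfold C0; positivity
  have hc0 : c0.natAbs ≠ 0 := Int.natAbs_ne_zero.mpr H.hc0
  have hm0 : 6 * c0.natAbs * j.factorial * w ≠ 0 := by positivity
  -- the lower bound for the discriminant
  have hlow := disc_lower hF hDD0 hC0 fun v => by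
    refine H.place_ineq hgk hg hY hT hw hcop v ?_
    intro hne
    have h := (val_squarefree hsq (fun p hp hpd => lt_of_le_of_lt hj (hwj p hp hpd)) v).resolve_left
      hne
    refine ⟨h, ?_⟩
    have hlt : v.valuation K (w : K) < 1 := by
      rw [h, ← exp_zero, exp_lt_exp]; norm_num
    obtain ⟨p, hp, hpw, hpv⟩ := exists_prime_of_val v hw.ne' hlt
    exact val_lt_of_dvd v hpv (hwT p hp hpw)
  -- the upper bound for the bad places
  have hup := bad_upper hF hm0 fun v hv => by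
    have h3 := H.bad_place hgk hY hT hw v hv
    obtain ⟨p, hp, hpd, hpv⟩ := exists_prime_of_val v (by positivity) h3
    refine val_lt_of_dvd v hpv ?_
    rcases (Nat.Prime.dvd_mul hp).mp hpd with h | h
    · exact (h.trans (by norm_num : (2 : ℕ) ∣ 6)).trans
        ⟨c0.natAbs * j.factorial * w, by ring⟩
    rcases (Nat.Prime.dvd_mul hp).mp h with h | h
    · exact h.trans ⟨6 * j.factorial * w, by ring⟩
    rcases (Nat.Prime.dvd_mul hp).mp h with h | h
    · exact h.mul_left _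
    · exact (hbad p hp h).trans ⟨c0.natAbs, by ring⟩
  set d := Module.finrank ℚ K with hd
  set Δ := discNorm g (frK K k δ ε e Q Y T w) with hΔ
  set N := badNorm g (frK K k δ ε e Q Y T w) with hN
  have hDD := DD_lower (g := g) (ε := ε) (b := b) (c := c) H.he hT h1 h2
  calc j ^ d * N ^ E0 g ε e ≤
        j ^ d * ((6 * c0.natAbs * j.factorial * w) ^ d) ^ E0 g ε e := by gcongr
    _ = ((6 * c0.natAbs) ^ E0 g ε e * (w ^ E0 g ε e * (j.factorial ^ E0 g ε e * j))) ^ d := by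
        rw [← pow_mul, mul_comm d (E0 g ε e), pow_mul, ← mul_pow]
        congr 1
        rw [mul_pow, mul_pow]
        ring
    _ ≤ ((6 * c0.natAbs) ^ E0 g ε e * (w ^ E0 g ε e * E)) ^ d := by gcongr
    _ ≤ ((6 * c0.natAbs) ^ E0 g ε e * (7 ^ aa g e b c * DD g ε e b c Y T w)) ^ d := by gcongr
    _ = ((6 * c0.natAbs) ^ E0 g ε e * 7 ^ aa g e b c) ^ d * DD g ε e b c Y T w ^ d := by
        rw [← mul_pow]; ring_nf
    _ ≤ ((6 * c0.natAbs) ^ E0 g ε e * 7 ^ aa g e b c) ^ d * (C0 g ^ d * Δ) := by gcongr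
    _ = _ := by rw [mul_pow _ (C0 g)]; ring

theorem Fam.main (H : Fam k δ ε e Q c0 b c) (g : ℕ) (hgk : 2 * k + δ = g + 1) (hg : 2 ≤ g) :
    ∃ f : ℕ → ℚ[X], ∀ (K : Type) [Field K] [NumberField K],
    (∀ j, IsHyp g ((f j).map (algebraMap ℚ K))) ∧
      ∀ c κ : ℝ, κ ≤ (E0 g ε e : ℝ) → ∀ᶠ j in atTop,
        c * (badNorm g ((f j).map (algebraMap ℚ K)) : ℝ) ^ κ <
          (discNorm g ((f j).map (algebraMap ℚ K)) : ℝ) := by
  choose Y T w hY hT hw hcop hsq hwj hwT hbad h1 h2 using fun j : ℕ =>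
    exists_num (j + 5) ((j + 5).factorial ^ E0 g ε e * (j + 5)) (by omega)
  refine ⟨fun j => frK ℚ k δ ε e Q (Y j) (T j) (w j), fun K _ _ => ⟨fun j => ?_, ?_⟩⟩
  · rw [map_frK]
    exact H.isHyp hgk (hY j) (hT j) (hw j)
  · intro c' κ hκ
    set d := Module.finrank ℚ K with hd
    have hd1 : 1 ≤ d := Module.finrank_pos
    set A : ℝ := ((((6 * c0.natAbs) ^ E0 g ε e * 7 ^ aa g e b c * C0 g) ^ d : ℕ) : ℝ) with hA
    have hc0 : c0.natAbs ≠ 0 := Int.natAbs_ne_zero.mpr H.hc0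
    have hA0 : 0 < A := by
      rw [hA]
      have : C0 g ≠ 0 := by unfold C0; positivity
      exact_mod_cast pow_pos (by positivity) d
    have hev1 : ∀ᶠ j : ℕ in atTop, |c'| * A < (j : ℝ) :=
      tendsto_natCast_atTop_atTop.eventually_gt_atTop _
    filter_upwards [hev1, eventually_ge_atTop (discr K).natAbs] with j hj1 hj2
    rw [map_frK]
    have hF := H.isHyp (K := K) hgk (hY j) (hT j) (hw j)
    have hM1 := one_le_badNorm hF
    have hcmp := H.compare (K := K) hgk hg (hY j) (hT j) (hw j) (hcop j) (hsq j) (hwj j) (hwT j)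
      (hbad j) (h1 j) (h2 j) (by omega)
      (Nat.lt_pow_self (by norm_num : 1 < 5)).le
    rw [← hd] at hcmp
    set N := badNorm g (frK K k δ ε e Q (Y j) (T j) (w j)) with hN
    set Δ := discNorm g (frK K k δ ε e Q (Y j) (T j) (w j)) with hΔ
    have hN1 : (1 : ℝ) ≤ (N : ℝ) := by exact_mod_cast hM1
    have hNpos : (0 : ℝ) < (N : ℝ) ^ E0 g ε e := by positivity
    have hcmp' : (j : ℝ) * (N : ℝ) ^ E0 g ε e ≤ A * Δ := by
      have h3 : j * N ^ E0 g ε e ≤ (j + 5) ^ d * N ^ E0 g ε e := by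
        apply Nat.mul_le_mul_right
        calc j ≤ j + 5 := by omega
          _ = (j + 5) ^ 1 := (pow_one _).symm
          _ ≤ (j + 5) ^ d := Nat.pow_le_pow_right (by omega) hd1
      have h4 := h3.trans hcmp
      rw [hA]
      exact_mod_cast h4
    have hpow : (N : ℝ) ^ κ ≤ (N : ℝ) ^ E0 g ε e := by
      rw [← Real.rpow_natCast]
      exact Real.rpow_le_rpow_of_exponent_le hN1 hκ
    have h5 : c' * (N : ℝ) ^ κ ≤ |c'| * (N : ℝ) ^ E0 g ε e := by
      calc c' * (N : ℝ) ^ κ ≤ |c'| * (N : ℝ) ^ κ :=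
            mul_le_mul_of_nonneg_right (le_abs_self c') (by positivity)
        _ ≤ _ := mul_le_mul_of_nonneg_left hpow (abs_nonneg c')
    refine h5.trans_lt ?_
    have h6 : A * (|c'| * (N : ℝ) ^ E0 g ε e) < A * Δ := by
      calc A * (|c'| * (N : ℝ) ^ E0 g ε e) = (|c'| * A) * (N : ℝ) ^ E0 g ε e := by ring
        _ < (j : ℝ) * (N : ℝ) ^ E0 g ε e := mul_lt_mul_of_pos_right hj1 hNpos
        _ ≤ A * Δ := hcmp'
    exact lt_of_mul_lt_mul_left h6 hA0.le

end

/-- The exponent of the theorem. -/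
def expo (g : ℕ) : ℕ := (2 * g + 1) * (g + 1 + 2 * (g % 2) + 2 * ((g + 3) / 4))

/-- **The assembly.** -/
theorem main (hTOR : S_TOR) (hDSTA : S_DSTA) (hDST : S_DST) (hFAC : S_FAC) (hTWI : S_TWI)
    (hVAL : S_VAL) (g : ℕ) (hg : 2 ≤ g) :
    ∃ f : ℕ → ℚ[X], ∀ (K : Type) [Field K] [NumberField K],
    (∀ j, IsHyp g ((f j).map (algebraMap ℚ K))) ∧
      ∀ c κ : ℝ, κ ≤ (expo g : ℝ) → ∀ᶠ j in atTop,
        c * (badNorm g ((f j).map (algebraMap ℚ K)) : ℝ) ^ κ <
          (discNorm g ((f j).map (algebraMap ℚ K)) : ℝ) := by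
  set k := (g + 1) / 2 with hk
  set δ := (g + 1) % 2 with hδ
  have hgk : 2 * k + δ = g + 1 := by omega
  obtain ⟨Q, hQ⟩ := hTOR k (by omega)
  obtain ⟨c0, b, c, hc0, hdisc⟩ := hDST k δ _ Q (by omega) (by omega) hQ
  have H : Fam k δ (g % 2) ((k + 1) / 2) Q c0 b c :=
    { hk := by omega
      hδ := by omega
      he := by omega
      adm := hQ
      hc0 := hc0
      sqf := hDSTA k δ _ Q (by omega) (by omega) hQ
      disc := hdisc
      fac := hFAC
      twi := hTWI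
      val := hVAL }
  have he : E0 g (g % 2) ((k + 1) / 2) = expo g := by
    have h1 : (k + 1) / 2 = (g + 3) / 4 := by omega
    rw [E0, expo, h1]
    ring
  rw [← he]
  exact H.main g hgk hg

end Pool.Agent.K3h74.SZ
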