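import Pool.Agent.Y678.SZ.Num

namespace Pool.Agent.K3h74.SZ

open Real
open Pool.Agent.Y678.SZ (exists_ab)

/-- Two coprime squares composed of `2` and `3`, close to each other, congruent modulo `5 ^ B`
(the proof is the one of `Pool.Agent.Y678.SZ.exists_YZ`). -/
theorem exists_YZ2 (B : ℕ) (hB : 1 ≤ B) : ∃ Y Z : ℕ, 0 < Y ∧ 2 * Y ^ 2 < Z ^ 2 ∧
    Z ^ 2 < 8 * Y ^ 2 ∧ Nat.Coprime (Y ^ 2) (Z ^ 2) ∧
    5 ^ B ∣ Z ^ 2 - Y ^ 2 ∧ (∀ p : ℕ, p.Prime → p ∣ Y ^ 2 * Z ^ 2 → p ∣ 6) := by
  set Q := Nat.totient (5 ^ B) with hQdef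
  have hQ : 1 ≤ Q := Nat.totient_pos.mpr (by positivity)
  have hQeven : Even Q := Nat.totient_even (by
    calc 2 < 5 ^ 1 := by norm_num
      _ ≤ 5 ^ B := Nat.pow_le_pow_right (by norm_num) hB)
  obtain ⟨q, hq⟩ := hQeven
  have hsq : ∀ x : ℕ, (x ^ q) ^ 2 = x ^ Q := by
    intro x
    rw [← pow_mul, hq]
    congr 1
    ring
  obtain ⟨a, b, hab1, hab2⟩ := exists_ab hQ
  set z := 2 ^ a.toNat * 3 ^ b.toNat with hz
  set y := 2 ^ (-a).toNat * 3 ^ (-b).toNat with hy
  have hz0 : 0 < z := by positivity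
  have hy0 : 0 < y := by positivity
  have hlog : Real.log ((z : ℝ) ^ Q) - Real.log ((y : ℝ) ^ Q) =
      Q * (a * Real.log 2 + b * Real.log 3) := by
    have ea : ((a.toNat : ℕ) : ℝ) - (((-a).toNat : ℕ) : ℝ) = a := by
      have : (a.toNat : ℤ) - ((-a).toNat : ℤ) = a := by omega
      exact_mod_cast this
    have eb : ((b.toNat : ℕ) : ℝ) - (((-b).toNat : ℕ) : ℝ) = b := by
      have : (b.toNat : ℤ) - ((-b).toNat : ℤ) = b := by omega
      exact_mod_cast this
    rw [Real.log_pow, Real.log_pow, hz, hy]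
    push_cast
    rw [Real.log_mul (by positivity) (by positivity), Real.log_mul (by positivity) (by positivity),
      Real.log_pow, Real.log_pow, Real.log_pow, Real.log_pow]
    rw [← ea, ← eb]
    ring
  have hzQ : (0 : ℝ) < (z : ℝ) ^ Q := by positivity
  have hyQ : (0 : ℝ) < (y : ℝ) ^ Q := by positivity
  have hlt1 : 2 * y ^ Q < z ^ Q := by
    have h1 : Real.log (2 * (y : ℝ) ^ Q) < Real.log ((z : ℝ) ^ Q) := by
      rw [Real.log_mul (by norm_num) hyQ.ne']
      linarith
    have h2 := (Real.log_lt_log_iff (by positivity) hzQ).mp h1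
    exact_mod_cast h2
  have hlt2 : z ^ Q < 8 * y ^ Q := by
    have h1 : Real.log ((z : ℝ) ^ Q) < Real.log (8 * (y : ℝ) ^ Q) := by
      rw [Real.log_mul (by norm_num) hyQ.ne']
      linarith
    have h2 := (Real.log_lt_log_iff hzQ (by positivity)).mp h1
    exact_mod_cast h2
  have hcop : Nat.Coprime y z := by
    have h23 : Nat.Coprime 2 3 := by norm_num
    rw [hy, hz]
    apply Nat.Coprime.mul_left
    · apply Nat.Coprime.mul_right
      · rcases le_total 0 a with h | h
        · have : (-a).toNat = 0 := by omega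
          rw [this, pow_zero]; exact Nat.coprime_one_left _
        · have : a.toNat = 0 := by omega
          rw [this, pow_zero]; exact Nat.coprime_one_right _
      · exact Nat.Coprime.pow _ _ h23
    · apply Nat.Coprime.mul_right
      · exact Nat.Coprime.pow _ _ h23.symm
      · rcases le_total 0 b with h | h
        · have : (-b).toNat = 0 := by omega
          rw [this, pow_zero]; exact Nat.coprime_one_left _
        · have : b.toNat = 0 := by omega
          rw [this, pow_zero]; exact Nat.coprime_one_right _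
  have h5 : ∀ i j : ℕ, Nat.Coprime (2 ^ i * 3 ^ j) (5 ^ B) := by
    intro i j
    exact Nat.Coprime.mul_left (Nat.Coprime.pow _ _ (by norm_num))
      (Nat.Coprime.pow _ _ (by norm_num))
  refine ⟨y ^ q, z ^ q, by positivity, ?_, ?_, ?_, ?_, ?_⟩
  · rw [hsq, hsq]; exact hlt1
  · rw [hsq, hsq]; exact hlt2
  · rw [hsq, hsq]; exact Nat.Coprime.pow _ _ hcop
  · rw [hsq, hsq]
    have h1 : z ^ Q ≡ 1 [MOD 5 ^ B] := Nat.ModEq.pow_totient (h5 _ _)
    have h2 : y ^ Q ≡ 1 [MOD 5 ^ B] := Nat.ModEq.pow_totient (h5 _ _)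
    exact (Nat.modEq_iff_dvd' (by omega)).mp (h2.trans h1.symm)
  · intro p hp hdvd
    rw [hsq, hsq] at hdvd
    have h1 : p ∣ y ∨ p ∣ z := by
      rcases (Nat.Prime.dvd_mul hp).mp hdvd with h | h
      · exact Or.inl (hp.dvd_of_dvd_pow h)
      · exact Or.inr (hp.dvd_of_dvd_pow h)
    have h6 : ∀ i j : ℕ, p ∣ 2 ^ i * 3 ^ j → p ∣ 6 := by
      intro i j h
      rcases (Nat.Prime.dvd_mul hp).mp h with h | h
      · exact (hp.dvd_of_dvd_pow h).trans (by norm_num)
      · exact (hp.dvd_of_dvd_pow h).trans (by norm_num)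
    rcases h1 with h | h
    · exact h6 _ _ h
    · exact h6 _ _ h

/-- The numbers used in the construction: `T = u (2 y + u) = (y + u)² - y²`
(the proof is the one of `Pool.Agent.Y678.SZ.exists_num`). -/
theorem exists_num2 (j B : ℕ) (hj : 5 ≤ j) (hB : 1 ≤ B) : ∃ y u w : ℕ, 0 < y ∧ 0 < u ∧ 0 < w ∧
    Nat.Coprime (y ^ 2) (u * (2 * y + u)) ∧ Squarefree w ∧
    (∀ p : ℕ, p.Prime → p ∣ w → j < p) ∧
    (∀ p : ℕ, p.Prime → p ∣ w → p ∣ u * (2 * y + u)) ∧
    (∀ p : ℕ, p.Prime → p ∣ y * ((y + u) * (u * (2 * y + u))) → p ∣ 6 * j.factorial * w) ∧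
    w * 5 ^ B ≤ u * (2 * y + u) ∧ u * (2 * y + u) ≤ 7 * y ^ 2 ∧ 2 * y ≤ 5 * u := by
  obtain ⟨y, z, hY, h2, h8, hcop, h5, h6⟩ := exists_YZ2 B hB
  have hyz : y < z := by
    by_contra h
    push Not at h
    have : z ^ 2 ≤ y ^ 2 := Nat.pow_le_pow_left h 2
    omega
  obtain ⟨u, rfl⟩ : ∃ u, z = y + u := ⟨z - y, by omega⟩
  have hu0 : 0 < u := by omega
  set T := u * (2 * y + u) with hT
  have hZ : y ^ 2 + T = (y + u) ^ 2 := by rw [hT]; ring
  have hT0 : 0 < T := by positivity
  have hTe : (y + u) ^ 2 - y ^ 2 = T := by omega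
  set w := ∏ p ∈ T.primeFactors.filter (fun p => j < p), p with hw
  have hwmem : ∀ p : ℕ, p.Prime → (p ∣ w ↔ p ∣ T ∧ j < p) := by
    intro p hp
    rw [hw, Prime.dvd_finsetProd_iff hp.prime]
    constructor
    · rintro ⟨q, hq, hpq⟩
      rw [Finset.mem_filter, Nat.mem_primeFactors] at hq
      have : p = q := (Nat.prime_dvd_prime_iff_eq hp hq.1.1).mp hpq
      rw [this]
      exact ⟨hq.1.2.1, hq.2⟩
    · rintro ⟨h, h'⟩
      exact ⟨p, by rw [Finset.mem_filter, Nat.mem_primeFactors]; exact ⟨⟨hp, h, hT0.ne'⟩, h'⟩,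
        dvd_rfl⟩
  have hw0 : 0 < w := Finset.prod_pos fun p hp => by
    rw [Finset.mem_filter, Nat.mem_primeFactors] at hp
    exact hp.1.1.pos
  have hwT : w ∣ T := (Finset.prod_dvd_prod_of_subset _ _ _ (Finset.filter_subset _ _)).trans
    (Nat.prod_primeFactors_dvd T)
  have hsq : Squarefree w := by
    have h1 : Squarefree (∏ p ∈ T.primeFactors, p) := by
      rw [Nat.squarefree_iff_prime_squarefree]
      intro q hq hdvd
      have h2 : (∏ p ∈ T.primeFactors, p).factorization q = 1 ∨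
          (∏ p ∈ T.primeFactors, p).factorization q = 0 := by
        rw [Nat.factorization_prod (fun p hp => (Nat.prime_of_mem_primeFactors hp).ne_zero)]
        rw [Finsupp.finsetSum_apply]
        by_cases hqT : q ∈ T.primeFactors
        · left
          rw [Finset.sum_eq_single q]
          · exact hq.factorization_self
          · intro r hr hrq
            exact Nat.factorization_eq_zero_of_not_dvd fun h =>
              hrq ((Nat.prime_dvd_prime_iff_eq hq (Nat.prime_of_mem_primeFactors hr)).mp h).symm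
          · intro h; exact absurd hqT h
        · right
          apply Finset.sum_eq_zero
          intro r hr
          exact Nat.factorization_eq_zero_of_not_dvd fun h => hqT (by
            rw [(Nat.prime_dvd_prime_iff_eq hq (Nat.prime_of_mem_primeFactors hr)).mp h]
            exact hr)
      have h3 : 2 ≤ (∏ p ∈ T.primeFactors, p).factorization q := by
        rw [← sq] at hdvd
        exact (hq.pow_dvd_iff_le_factorization (Finset.prod_pos fun p hp =>
          (Nat.prime_of_mem_primeFactors hp).pos).ne').mp hdvd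
      omega
    exact h1.squarefree_of_dvd (Finset.prod_dvd_prod_of_subset _ _ _ (Finset.filter_subset _ _))
  refine ⟨y, u, w, hY, hu0, hw0, ?_, hsq, fun p hp h => ((hwmem p hp).mp h).2,
    fun p hp h => ((hwmem p hp).mp h).1, ?_, ?_, by rw [← hT]; omega, ?_⟩
  · rw [← hZ] at hcop
    rwa [Nat.coprime_self_add_right] at hcop
  · intro p hp h
    have hyz6 : ∀ x : ℕ, x ∣ y ^ 2 * (y + u) ^ 2 → p ∣ x → p ∣ 6 := fun x hx hpx =>
      h6 p hp (hpx.trans hx)
    rcases (Nat.Prime.dvd_mul hp).mp h with h | h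
    · exact ((hyz6 y ((dvd_pow_self y two_ne_zero).mul_right _) h).mul_right _).mul_right _
    · rcases (Nat.Prime.dvd_mul hp).mp h with h | h
      · exact ((hyz6 (y + u) ((dvd_pow_self (y + u) two_ne_zero).mul_left _)
          h).mul_right _).mul_right _
      · by_cases hpj : j < p
        · exact ((hwmem p hp).mpr ⟨h, hpj⟩).mul_left _
        · exact ((hp.dvd_factorial.mpr (by omega)).mul_left _).mul_right _
  · have hc5 : Nat.Coprime w (5 ^ B) := by
      apply Nat.Coprime.pow_right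
      rw [Nat.coprime_comm, Nat.Prime.coprime_iff_not_dvd (by norm_num)]
      intro h
      have := ((hwmem 5 (by norm_num)).mp h).2
      omega
    rw [hTe] at h5
    exact Nat.le_of_dvd hT0 (Nat.Coprime.mul_dvd_of_dvd_of_dvd hc5 hwT h5)
  · by_contra h
    push Not at h
    nlinarith

end Pool.Agent.K3h74.SZ
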