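import Pool.Agent.K3h74.SZ.Stm2
import Pool.Agent.K3h74.SZ.Num2
import Pool.Agent.K3h74.SZ.Asm

namespace Pool.Agent.K3h74.SZ

open Polynomial Pool.Agent.W318 Finset NumberField IsDedekindDomain WithZero Filter

open Pool.Agent.Y678.SZ (val_nat_le_one val_one_or exists_prime_of_val val_lt_of_dvd disc_lower
  bad_upper one_le_badNorm val_squarefree disc_act_val)

/-- The parameter `(y + u) / y`. -/
noncomputable def ss (K : Type*) [Field K] (y u : ℕ) : K := ((y : K) + u) / y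

/-- The form. -/
noncomputable def frL (K : Type*) [Field K] (k δ ε : ℕ) (Q : ℤ[X][X]) (y u w : ℕ) : K[X] :=
  frm k δ ε (Q.map (sp (ss K y u))) ((y : K) ^ (k + 1)) (w : K)

theorem map_ss {K L : Type*} [Field K] [Field L] (f : K →+* L) (y u : ℕ) :
    f (ss K y u) = ss L y u := by
  simp [ss]

theorem map_frL {K L : Type*} [Field K] [Field L] (f : K →+* L) (k δ ε : ℕ) (Q : ℤ[X][X])
    (y u w : ℕ) : (frL K k δ ε Q y u w).map f = frL L k δ ε Q y u w := by
  unfold frL frm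
  rw [frmB_map, base_map, Polynomial.map_map, sp_map, map_ss]
  simp

/-- All the data. -/
structure Fam2 (k δ ε : ℕ) (Q : ℤ[X][X]) (c0 : ℤ) (b c d : ℕ) : Prop where
  hk : 1 ≤ k
  hδ : δ + ε = 1
  adm : Adm2 k Q
  hc0 : c0 ≠ 0
  sqf : ∀ s : ℂ, s ≠ 0 → s ≠ 1 → s ≠ -1 → Squarefree ((base k δ (Q.map (sp s))).comp (X ^ 2))
  disc : ∀ (F : Type) [Field F] [CharZero F] (s : F),
    ((base k δ (Q.map (sp s))).comp (X ^ 2)).discr = c0 * (s ^ b * ((s - 1) ^ c * (s + 1) ^ d))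
  fac : S_FAC
  twi : S_TWI
  val : S_VAL

section

variable {k δ ε : ℕ} {Q : ℤ[X][X]} {c0 : ℤ} {b c d : ℕ}

variable {K : Type} [Field K] [NumberField K]

theorem Fam2.sqfK (H : Fam2 k δ ε Q c0 b c d) {s : K} (h0 : s ≠ 0) (h1 : s ≠ 1) (hm : s ≠ -1) :
    Squarefree ((base k δ (Q.map (sp s))).comp (X ^ 2)) := by
  obtain ⟨φ⟩ : Nonempty (K →+* ℂ) := inferInstance
  have h2 := H.sqf (φ s) (by rwa [Ne, map_eq_zero]) (by
    intro h; apply h1; apply φ.injective; rw [h, map_one]) (by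
    intro h; apply hm; apply φ.injective; rw [h, map_neg, map_one])
  have h3 : ((base k δ (Q.map (sp s))).comp (X ^ 2)).map φ =
      (base k δ (Q.map (sp (φ s)))).comp (X ^ 2) := by
    rw [Polynomial.map_comp, base_map, Polynomial.map_map, sp_map]
    simp
  rw [← h3, ← PerfectField.separable_iff_squarefree, Polynomial.separable_map] at h2
  exact h2.squarefree

theorem ss_ne_zero {y u : ℕ} (hy : 0 < y) : ss K y u ≠ 0 := by
  have hy' : (y : K) ≠ 0 := Nat.cast_ne_zero.mpr hy.ne'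
  have hyu : (y : K) + u ≠ 0 := by exact_mod_cast (by omega : y + u ≠ 0)
  exact div_ne_zero hyu hy'

theorem ss_sub_one {y u : ℕ} (hy : 0 < y) : ss K y u - 1 = (u : K) / y := by
  have hy' : (y : K) ≠ 0 := Nat.cast_ne_zero.mpr hy.ne'
  unfold ss
  field_simp
  ring

theorem ss_add_one {y u : ℕ} (hy : 0 < y) : ss K y u + 1 = (2 * (y : K) + u) / y := by
  have hy' : (y : K) ≠ 0 := Nat.cast_ne_zero.mpr hy.ne'
  unfold ss
  field_simp
  ring

theorem ss_ne_one {y u : ℕ} (hy : 0 < y) (hu : 0 < u) : ss K y u ≠ 1 := by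
  have hy' : (y : K) ≠ 0 := Nat.cast_ne_zero.mpr hy.ne'
  have hu' : (u : K) ≠ 0 := Nat.cast_ne_zero.mpr hu.ne'
  intro h
  have := ss_sub_one (K := K) (y := y) (u := u) hy
  rw [h, sub_self] at this
  exact div_ne_zero hu' hy' this.symm

theorem ss_ne_neg_one {y u : ℕ} (hy : 0 < y) : ss K y u ≠ -1 := by
  have hy' : (y : K) ≠ 0 := Nat.cast_ne_zero.mpr hy.ne'
  have hu' : 2 * (y : K) + u ≠ 0 := by exact_mod_cast (by omega : 2 * y + u ≠ 0)
  intro h
  have := ss_add_one (K := K) (y := y) (u := u) hy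
  rw [h, neg_add_cancel] at this
  exact div_ne_zero hu' hy' this.symm

theorem Fam2.valF (H : Fam2 k δ ε Q c0 b c d) {y u w : ℕ} (hy : 0 < y) (hu : 0 < u)
    (hw : 0 < w) (v : HeightOneSpectrum (𝓞 K)) :
    GoodForm (2 * k + δ) (frL K k δ ε Q y u w) ∧
    (frL K k δ ε Q y u w).natDegree = 2 * k + δ + (2 * k + δ) ∧
    v.valuation K (discN (2 * k + δ + (2 * k + δ)) (frL K k δ ε Q y u w)) =
      v.valuation K ((w : K) ^ ((2 * k + δ + (2 * k + δ) - 1) * (2 * ε + (2 * k + δ))) *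
        ((y : K) ^ (k + 1)) ^ (2 * (2 * k + δ + (2 * k + δ) - 1)) *
        (c0 * (ss K y u ^ b * ((ss K y u - 1) ^ c * (ss K y u + 1) ^ d)))) := by
  have hy' : (y : K) ≠ 0 := Nat.cast_ne_zero.mpr hy.ne'
  have hw' : (w : K) ≠ 0 := Nat.cast_ne_zero.mpr hw.ne'
  have hm := H.adm.monic.map (sp (ss K y u))
  have hd : (Q.map (sp (ss K y u))).natDegree = k := by
    rw [H.adm.monic.natDegree_map, H.adm.deg]
  have := H.val K v (2 * k + δ) ε (base k δ (Q.map (sp (ss K y u)))) ((y : K) ^ (k + 1)) w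
    (by have := H.hk; omega) (base_monic k δ _ hm hd) (base_natDegree k δ _ hm hd)
    (pow_ne_zero _ hy') hw' (H.sqfK (ss_ne_zero hy) (ss_ne_one hy hu) (ss_ne_neg_one hy))
  rw [H.disc] at this
  exact this

theorem int_frL {y u w : ℕ} {v : HeightOneSpectrum (𝓞 K)}
    (hy : v.valuation K (y : K) = 1) (i : ℕ) :
    v.valuation K ((frL K k δ ε Q y u w).coeff i) ≤ 1 := by
  have ht : v.valuation K (ss K y u) ≤ 1 := by
    rw [ss, map_div₀, hy, div_one]
    refine (Valuation.map_add _ _ _).trans (max_le ?_ ?_) <;> exact val_nat_le_one v _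
  set O := (v.valuation K).integer with hO
  set t' : O := ⟨ss K y u, ht⟩ with ht'
  set y' : O := ⟨(y : K) ^ (k + 1), by
    rw [hO, Valuation.mem_integer_iff, map_pow, hy, one_pow]⟩ with hy'
  set w' : O := ⟨(w : K), val_nat_le_one v w⟩ with hw'
  have h1 : frL K k δ ε Q y u w = (frm k δ ε (Q.map (sp t')) y' w').map O.subtype := by
    unfold frL frm
    rw [frmB_map, base_map, Polynomial.map_map, sp_map]
    rfl
  rw [h1, coeff_map]
  exact ((frm k δ ε (Q.map (sp t')) y' w').coeff i).2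

end

/-- The exponent. -/
def E2 (g ε k : ℕ) : ℕ := (2 * g + 1) * (2 * ε + (g + 1)) + (k + 1) * (2 * g + 1)

/-- The exponent of `y`. -/
def a2 (g k b c d : ℕ) : ℕ := 2 * ((k + 1) * (2 * g + 1)) - (b + c + d)

/-- The size of the discriminant. -/
def D2 (g ε k b c d y u w : ℕ) : ℕ :=
  w ^ ((2 * g + 1) * (2 * ε + (g + 1))) *
    (y ^ a2 g k b c d * ((y + u) ^ b * (u ^ c * (2 * y + u) ^ d)))

section

variable {k δ ε : ℕ} {Q : ℤ[X][X]} {c0 : ℤ} {b c d : ℕ}

variable {K : Type} [Field K] [NumberField K]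

theorem Fam2.isHyp (H : Fam2 k δ ε Q c0 b c d) {g : ℕ} (hgk : 2 * k + δ = g + 1) {y u w : ℕ}
    (hy : 0 < y) (hu : 0 < u) (hw : 0 < w) : IsHyp g (frL K k δ ε Q y u w) := by
  obtain ⟨p, hp0, hp⟩ := Ring.not_isField_iff_exists_prime.mp
    (NumberField.RingOfIntegers.not_isField K)
  let v : HeightOneSpectrum (𝓞 K) := ⟨p, hp, hp0⟩
  obtain ⟨h1, h2, -⟩ := H.valF (K := K) hy hu hw v
  exact ⟨h1.1, Or.inr (by rw [h2]; omega)⟩

theorem Fam2.valD2 (H : Fam2 k δ ε Q c0 b c d) {g : ℕ} (hgk : 2 * k + δ = g + 1) {y u w : ℕ}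
    (hy : 0 < y) (hu : 0 < u) (hw : 0 < w) (v : HeightOneSpectrum (𝓞 K))
    (hc : v.valuation K (y : K) = 1 ∨ b + c + d ≤ 2 * ((k + 1) * (2 * g + 1))) :
    v.valuation K (discN (g + 1 + (g + 1)) (frL K k δ ε Q y u w)) =
      v.valuation K (c0 : K) * v.valuation K (D2 g ε k b c d y u w : K) := by
  obtain ⟨-, -, h1⟩ := H.valF (K := K) hy hu hw v
  have hy' : (y : K) ≠ 0 := Nat.cast_ne_zero.mpr hy.ne'
  rw [hgk] at h1
  have e1 : g + 1 + (g + 1) - 1 = 2 * g + 1 := by omega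
  rw [e1, ss_sub_one hy, ss_add_one hy, ss] at h1
  rw [h1, D2]
  rcases hc with hc | hc
  · push_cast
    simp only [map_mul, map_pow, map_div₀, hc, one_pow, div_one, mul_one, one_mul]
    exact mul_left_comm _ _ _
  · rw [← map_mul]
    congr 1
    have e2 : ((y : K) ^ (k + 1)) ^ (2 * (2 * g + 1)) = (y : K) ^ a2 g k b c d * ((y : K) ^ b *
        ((y : K) ^ c * (y : K) ^ d)) := by
      rw [← pow_mul, ← pow_add, ← pow_add, ← pow_add]
      congr 1
      have : a2 g k b c d + (b + (c + d)) = 2 * ((k + 1) * (2 * g + 1)) := by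
        unfold a2; omega
      rw [this]; ring
    rw [e2]
    push_cast
    rw [div_pow, div_pow, div_pow]
    field_simp

/-- The values at a place dividing `y`. -/
theorem val_units {y u : ℕ} (hcop : Nat.Coprime (y ^ 2) (u * (2 * y + u)))
    (v : HeightOneSpectrum (𝓞 K)) (hy : v.valuation K (y : K) ≠ 1) :
    v.valuation K (u : K) = 1 ∧ v.valuation K (2 * (y : K) + u) = 1 ∧
      v.valuation K ((y : K) + u) = 1 ∧ v.valuation K ((u * (2 * y + u) : ℕ) : K) = 1 := by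
  have hy2 : v.valuation K ((y ^ 2 : ℕ) : K) ≠ 1 := by
    have hlt := lt_of_le_of_ne (val_nat_le_one v y) hy
    rw [Nat.cast_pow, map_pow]
    exact (pow_lt_one₀ zero_le hlt two_ne_zero).ne
  have hT1 : v.valuation K ((u * (2 * y + u) : ℕ) : K) = 1 :=
    (val_one_or hcop v).resolve_left hy2
  have h1 : v.valuation K (u : K) = 1 := by
    refine le_antisymm (val_nat_le_one v _) ?_
    rw [← hT1, Nat.cast_mul, map_mul]
    exact mul_le_of_le_one_right' (val_nat_le_one v _)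
  have h2 : v.valuation K (2 * (y : K) + u) = 1 := by
    rw [Nat.cast_mul, map_mul, h1, one_mul] at hT1
    push_cast at hT1
    exact hT1
  refine ⟨h1, h2, ?_, hT1⟩
  have hy1 := lt_of_le_of_ne (val_nat_le_one v y) hy
  rw [Valuation.map_add_eq_of_lt_right _ (by rw [h1]; exact hy1), h1]

theorem valD2_one {g ε k b c d : ℕ} {y u w : ℕ} (hcop : Nat.Coprime (y ^ 2) (u * (2 * y + u)))
    (v : HeightOneSpectrum (𝓞 K))
    (hwT : v.valuation K (w : K) ≠ 1 → v.valuation K ((u * (2 * y + u) : ℕ) : K) < 1)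
    (hy : v.valuation K (y : K) ≠ 1) (hbc : ¬ b + c + d ≤ 2 * ((k + 1) * (2 * g + 1))) :
    v.valuation K (D2 g ε k b c d y u w : K) = 1 := by
  obtain ⟨h1, h2, h3, hT1⟩ := val_units hcop v hy
  have hw1 : v.valuation K (w : K) = 1 := by
    by_contra h
    exact (hwT h).ne hT1
  have ha : a2 g k b c d = 0 := by unfold a2; omega
  rw [D2, ha]
  push_cast
  simp [h1, h2, h3, hw1]

theorem Fam2.place_ineq (H : Fam2 k δ ε Q c0 b c d) {g : ℕ} (hgk : 2 * k + δ = g + 1)
    (hg : 2 ≤ g) {y u w : ℕ} (hy : 0 < y) (hu : 0 < u) (hw : 0 < w)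
    (hcop : Nat.Coprime (y ^ 2) (u * (2 * y + u))) (v : HeightOneSpectrum (𝓞 K))
    (hwT : v.valuation K (w : K) ≠ 1 →
      v.valuation K (w : K) = exp (-1) ∧ v.valuation K ((u * (2 * y + u) : ℕ) : K) < 1) :
    exp (-((minExp g (frL K k δ ε Q y u w) v : ℕ) : ℤ)) * v.valuation K (C0 g : K) ≤
      v.valuation K (D2 g ε k b c d y u w : K) := by
  by_cases hcase : v.valuation K (y : K) = 1 ∨ b + c + d ≤ 2 * ((k + 1) * (2 * g + 1))
  swap
  · push Not at hcase
    rw [valD2_one hcop v (fun h => (hwT h).2) hcase.1 (by omega)]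
    refine mul_le_one' ?_ (val_nat_le_one v _)
    rw [← exp_zero, exp_le_exp]
    omega
  have hdisc := H.valD2 hgk hy hu hw v hcase
  have hF := H.isHyp (K := K) hgk hy hu hw
  have hy' : (y : K) ≠ 0 := Nat.cast_ne_zero.mpr hy.ne'
  refine le_trans ?_ (mul_le_of_le_one_left' (val_int_le_one v c0))
  rw [← hdisc]
  obtain ⟨f, f₂, hM, hn⟩ := exists_min_model hF v
  obtain ⟨φ⟩ := hM.iso
  have hbr := bridge hg hF.1 hF.2 hM.upper φ
  have hint := int_comb v hM.int hM.int₂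
  have hgood' : GoodForm (g + 1) (4 * f + f₂ ^ 2) := hbr.good (by omega) hF.good
  have h4 : (1 / 4 : K) ≠ 0 := by norm_num
  rw [modelDisc_eq, four_mul_form, discN_C_mul (by omega) h4 hgood'.2] at hn
  rw [← hn, ← map_mul]
  have e1 : (2 : K) ^ (4 * g) * ((1 / 4) ^ (2 * (g + 1 + (g + 1) - 1)) *
      discN (g + 1 + (g + 1)) (4 * f + f₂ ^ 2)) * (C0 g : K) =
      discN (g + 1 + (g + 1)) (4 * f + f₂ ^ 2) *
        (16 ^ (g + 1)) ^ (2 * (g + 1 + (g + 1) - 1)) := by
    have e2 : (2 : K) ^ (4 * g) * 2 ^ (4 * g + 4) = 4 ^ (2 * (g + 1 + (g + 1) - 1)) := by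
      rw [← pow_add, show (4 : K) = 2 ^ 2 by norm_num, ← pow_mul]
      congr 1
      omega
    have e3 : (1 / 4 : K) ^ (2 * (g + 1 + (g + 1) - 1)) * 4 ^ (2 * (g + 1 + (g + 1) - 1)) = 1 := by
      rw [← mul_pow]; norm_num
    unfold C0
    push_cast
    calc _ = ((1 / 4 : K) ^ (2 * (g + 1 + (g + 1) - 1)) * (2 ^ (4 * g) * 2 ^ (4 * g + 4))) *
          (discN (g + 1 + (g + 1)) (4 * f + f₂ ^ 2) *
          (16 ^ (g + 1)) ^ (2 * (g + 1 + (g + 1) - 1))) := by ring
      _ = _ := by rw [e2, e3, one_mul]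
  rw [e1]
  obtain ⟨a', b', c', d', l, hdet, hl, hF'⟩ := hbr
  rw [hF'] at hint ⊢
  have hm := H.adm.monic.map (sp (ss K y u))
  have hd : (Q.map (sp (ss K y u))).natDegree = k := by
    rw [H.adm.monic.natDegree_map, H.adm.deg]
  by_cases hw1 : v.valuation K (w : K) = 1
  · -- the untwisted places
    have hδ := H.hδ
    have key := H.fac K v k δ ε (Q.map (sp (ss K y u))) ((y : K) ^ (k + 1)) w H.hk (by omega) hm hd
      (H.sqfK (ss_ne_zero hy) (ss_ne_one hy hu) (ss_ne_neg_one hy)) (pow_ne_zero _ hy') hw1 ?_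
      a' b' c' d' l hdet hl
    · rw [hgk] at key
      exact key hint
    · by_cases hy1 : v.valuation K (y : K) = 1
      · left; rw [map_pow, hy1, one_pow]
      · right
        obtain ⟨-, -, hZ, -⟩ := val_units hcop v hy1
        have h0 : v.valuation K ((Q.map (sp (ss K y u))).coeff 0) =
            v.valuation K (ss K y u) ^ (k + 1) := by
          rw [coeff_map]
          rcases H.adm.zero with h | h
          · rw [h, map_pow, sp_X, map_pow]
          · rw [h, map_neg, map_pow, sp_X, Valuation.map_neg, map_pow]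
        rw [map_mul, h0, map_pow, ← mul_pow, ← map_mul, ss, mul_div_cancel₀ _ hy', hZ, one_pow]
  · -- the twisted places
    obtain ⟨hw2, hT1⟩ := hwT hw1
    have hy1 : v.valuation K (y : K) = 1 := by
      by_contra h
      exact hT1.ne (val_units hcop v h).2.2.2
    have ht : v.valuation K (ss K y u) ≤ 1 := by
      rw [ss, map_div₀, hy1, div_one]
      refine (Valuation.map_add _ _ _).trans (max_le ?_ ?_) <;> exact val_nat_le_one v _
    have h6 := disc_act_val (by omega : 2 ≤ g + 1) hF.good v hdet hl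
    have h7 : v.valuation K (l ^ 2 * (a' * d' - b' * c') ^ (g + 1)) ≤ 1 := by
      have := H.twi K v k δ ε (Q.map (sp (ss K y u))) ((y : K) ^ (k + 1)) w H.hk H.hδ hm hd
        (fun i => by rw [coeff_map]; exact val_sp ht _) (by rw [map_pow, hy1, one_pow]) hw2
        a' b' c' d' l hdet hl
      rw [hgk] at this
      exact this hint
    have h8 : v.valuation K (((16 : K) ^ (g + 1)) ^ (2 * (g + 1 + (g + 1) - 1))) ≤ 1 := by
      rw [map_pow]
      apply pow_le_one'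
      have : ((16 : K) ^ (g + 1)) = ((16 ^ (g + 1) : ℕ) : K) := by
        push_cast; ring
      rw [this]
      exact val_nat_le_one v _
    rw [map_mul, h6, map_mul, map_pow]
    calc _ ≤ (1 * v.valuation K (discN (g + 1 + (g + 1)) (frL K k δ ε Q y u w))) * 1 := by
          refine mul_le_mul' (mul_le_mul_left (pow_le_one' h7 _) _) h8
      _ = _ := by rw [one_mul, mul_one]

/-- The places of bad reduction. -/
theorem Fam2.bad_place (H : Fam2 k δ ε Q c0 b c d) {g : ℕ} (hgk : 2 * k + δ = g + 1)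
    {y u w : ℕ} (hy : 0 < y) (hu : 0 < u) (hw : 0 < w)
    (v : HeightOneSpectrum (𝓞 K)) (hv : minExp g (frL K k δ ε Q y u w) v ≠ 0) :
    v.valuation K
      ((2 * (c0.natAbs * (w * (y * ((y + u) * (u * (2 * y + u)))))) : ℕ) : K) < 1 := by
  have hF := H.isHyp (K := K) hgk hy hu hw
  by_contra hcon
  have h1 : v.valuation K
      ((2 * (c0.natAbs * (w * (y * ((y + u) * (u * (2 * y + u)))))) : ℕ) : K) = 1 :=
    le_antisymm (val_nat_le_one v _) (not_lt.mp hcon)
  have key : ∀ m : ℕ, m ∣ 2 * (c0.natAbs * (w * (y * ((y + u) * (u * (2 * y + u)))))) →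
      v.valuation K (m : K) = 1 := by
    rintro m ⟨x, hx⟩
    refine le_antisymm (val_nat_le_one v _) ?_
    rw [← h1, hx, Nat.cast_mul, map_mul]
    exact mul_le_of_le_one_right' (val_nat_le_one v _)
  have h2 := key 2 (dvd_mul_right _ _)
  have hc := key c0.natAbs ((dvd_mul_right _ _).mul_left _)
  have hw1 := key w (((dvd_mul_right _ _).mul_left _).mul_left _)
  have hy1 := key y ((((dvd_mul_right _ _).mul_left _).mul_left _).mul_left _)
  have hz1 := key (y + u) (((((dvd_mul_right _ _).mul_left _).mul_left _).mul_left _).mul_left _)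
  have hu1 := key u
    ((((((dvd_mul_right _ _).mul_left _).mul_left _).mul_left _).mul_left _).mul_left _)
  have hq1 := key (2 * y + u)
    ((((((dvd_mul_left _ _).mul_left _).mul_left _).mul_left _).mul_left _).mul_left _)
  have hc1 : v.valuation K (c0 : K) = 1 := by
    rcases Int.natAbs_eq c0 with h | h
    · rw [h, Int.cast_natCast]; exact hc
    · rw [h, Int.cast_neg, Int.cast_natCast, Valuation.map_neg]; exact hc
  have h3 : v.valuation K ((D2 g ε k b c d y u w : ℕ) : K) = 1 := by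
    rw [D2]
    push_cast at hz1 hq1 ⊢
    simp [hw1, hy1, hz1, hu1, hq1]
  have hd : (frL K k δ ε Q y u w).natDegree ≤ g + 1 + (g + 1) := by have := hF.2; omega
  have hdisc := H.valD2 hgk hy hu hw v (Or.inl hy1)
  rw [hc1, h3, one_mul] at hdisc
  obtain ⟨n, hn, _, hle⟩ := minExp_le hF v (Eqv.refl hd) (int_frL hy1) (t := 0)
    (by
      have : ((2 : ℕ) : K) = 2 := by norm_num
      rw [this] at h2
      rw [h2]; simp)
  rw [hdisc, ← exp_zero, exp_inj] at hn
  apply hv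
  have : n = 0 := by omega
  rw [this] at hle
  simpa using hle

end

theorem D2_lower {g ε k b c d y u w E : ℕ} (hu : 0 < u)
    (h1 : w * E ≤ u * (2 * y + u)) (h2 : u * (2 * y + u) ≤ 7 * y ^ 2) (h3 : 2 * y ≤ 5 * u) :
    w ^ E2 g ε k * E ≤ 7 ^ (a2 g k b c d + (b + (c + d))) * D2 g ε k b c d y u w := by
  set T := u * (2 * y + u) with hT
  set n := (k + 1) * (2 * g + 1) with hn
  set L := a2 g k b c d + (b + (c + d)) with hL
  set P := y ^ a2 g k b c d * ((y + u) ^ b * (u ^ c * (2 * y + u) ^ d)) with hP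
  have hT0 : 0 < T := by positivity
  have hn1 : 1 ≤ n := Nat.one_le_iff_ne_zero.mpr (by positivity)
  have hLn : 2 * n ≤ L := by rw [hL]; unfold a2; omega
  have q2 : T ≤ 7 * (y + u) ^ 2 := by rw [hT]; nlinarith
  have q3 : T ≤ 7 * u ^ 2 := by rw [hT]; nlinarith
  have q4 : T ≤ 7 * (2 * y + u) ^ 2 := by rw [hT]; nlinarith
  have hTP : T ^ L ≤ (7 ^ L * P) ^ 2 := by
    calc T ^ L = T ^ a2 g k b c d * (T ^ b * (T ^ c * T ^ d)) := by
          rw [hL, pow_add, pow_add, pow_add]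
      _ ≤ (7 * y ^ 2) ^ a2 g k b c d * ((7 * (y + u) ^ 2) ^ b * ((7 * u ^ 2) ^ c *
          (7 * (2 * y + u) ^ 2) ^ d)) := by gcongr
      _ = 7 ^ L * P ^ 2 := by
          rw [hL, hP]
          simp only [mul_pow, pow_add, ← pow_mul]
          ring
      _ ≤ (7 ^ L) ^ 2 * P ^ 2 := by
          exact Nat.mul_le_mul_right _ (Nat.le_self_pow two_ne_zero _)
      _ = _ := (mul_pow _ _ _).symm
  have hTn : T ^ n ≤ 7 ^ L * P := by
    have h4 : (T ^ n) ^ 2 ≤ (7 ^ L * P) ^ 2 := by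
      calc (T ^ n) ^ 2 = T ^ (2 * n) := by rw [← pow_mul, mul_comm]
        _ ≤ T ^ L := Nat.pow_le_pow_right hT0 hLn
        _ ≤ _ := hTP
    exact (Nat.pow_le_pow_iff_left two_ne_zero).mp h4
  have e4 : (w * E) ^ n ≤ T ^ n := Nat.pow_le_pow_left h1 _
  have e5 : E ≤ E ^ n := Nat.le_self_pow (by omega) E
  set κ' := (2 * g + 1) * (2 * ε + (g + 1)) with hκ'
  calc w ^ E2 g ε k * E = w ^ κ' * (w ^ n * E) := by
        rw [E2, pow_add]; ring
    _ ≤ w ^ κ' * (w ^ n * E ^ n) := by gcongr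
    _ = w ^ κ' * (w * E) ^ n := by rw [mul_pow]
    _ ≤ w ^ κ' * T ^ n := by gcongr
    _ ≤ w ^ κ' * (7 ^ L * P) := by gcongr
    _ = 7 ^ L * D2 g ε k b c d y u w := by unfold D2; ring

section

variable {k δ ε : ℕ} {Q : ℤ[X][X]} {c0 : ℤ} {b c d : ℕ}

/-- The comparison over one number field. -/
theorem Fam2.compare (H : Fam2 k δ ε Q c0 b c d) {K : Type} [Field K] [NumberField K] {g : ℕ}
    (hgk : 2 * k + δ = g + 1) (hg : 2 ≤ g) {y u w j E : ℕ}
    (hy : 0 < y) (hu : 0 < u) (hw : 0 < w) (hcop : Nat.Coprime (y ^ 2) (u * (2 * y + u)))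
    (hsq : Squarefree w)
    (hwj : ∀ p : ℕ, p.Prime → p ∣ w → j < p)
    (hwT : ∀ p : ℕ, p.Prime → p ∣ w → p ∣ u * (2 * y + u))
    (hbad : ∀ p : ℕ, p.Prime → p ∣ y * ((y + u) * (u * (2 * y + u))) →
      p ∣ 6 * j.factorial * w)
    (h1 : w * E ≤ u * (2 * y + u)) (h2 : u * (2 * y + u) ≤ 7 * y ^ 2) (h3 : 2 * y ≤ 5 * u)
    (hj : (discr K).natAbs ≤ j) (hEj : j.factorial ^ E2 g ε k * j ≤ E) :
    j ^ Module.finrank ℚ K * badNorm g (frL K k δ ε Q y u w) ^ E2 g ε k ≤
      ((6 * c0.natAbs) ^ E2 g ε k * 7 ^ (a2 g k b c d + (b + (c + d))) * C0 g) ^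
        Module.finrank ℚ K * discNorm g (frL K k δ ε Q y u w) := by
  have hF := H.isHyp (K := K) hgk hy hu hw
  have hDD0 : D2 g ε k b c d y u w ≠ 0 := by unfold D2; positivity
  have hC0 : C0 g ≠ 0 := by unfold C0; positivity
  have hc0 : c0.natAbs ≠ 0 := Int.natAbs_ne_zero.mpr H.hc0
  have hm0 : 6 * c0.natAbs * j.factorial * w ≠ 0 := by positivity
  -- the lower bound for the discriminant
  have hlow := disc_lower hF hDD0 hC0 fun v => by
    refine H.place_ineq hgk hg hy hu hw hcop v ?_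
    intro hne
    have h := (val_squarefree hsq (fun p hp hpd => lt_of_le_of_lt hj (hwj p hp hpd)) v).resolve_left
      hne
    refine ⟨h, ?_⟩
    have hlt : v.valuation K (w : K) < 1 := by
      rw [h, ← exp_zero, exp_lt_exp]; norm_num
    obtain ⟨p, hp, hpw, hpv⟩ := exists_prime_of_val v hw.ne' hlt
    exact val_lt_of_dvd v hpv (hwT p hp hpw)
  -- the upper bound for the bad places
  have hup := bad_upper hF hm0 fun v hv => by
    have h3 := H.bad_place hgk hy hu hw v hv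
    obtain ⟨p, hp, hpd, hpv⟩ := exists_prime_of_val v (by positivity) h3
    refine val_lt_of_dvd v hpv ?_
    rcases (Nat.Prime.dvd_mul hp).mp hpd with h | h
    · exact (h.trans (by norm_num : (2 : ℕ) ∣ 6)).trans
        ⟨c0.natAbs * j.factorial * w, by ring⟩
    rcases (Nat.Prime.dvd_mul hp).mp h with h | h
    · exact h.trans ⟨6 * j.factorial * w, by ring⟩
    rcases (Nat.Prime.dvd_mul hp).mp h with h | h
    · exact h.mul_left _
    · exact (hbad p hp h).trans ⟨c0.natAbs, by ring⟩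
  set dd := Module.finrank ℚ K with hdd
  set Δ := discNorm g (frL K k δ ε Q y u w) with hΔ
  set N := badNorm g (frL K k δ ε Q y u w) with hN
  set L := a2 g k b c d + (b + (c + d)) with hL
  have hDD := D2_lower (g := g) (ε := ε) (k := k) (b := b) (c := c) (d := d) hu h1 h2 h3
  rw [← hL] at hDD
  calc j ^ dd * N ^ E2 g ε k ≤
        j ^ dd * ((6 * c0.natAbs * j.factorial * w) ^ dd) ^ E2 g ε k := by gcongr
    _ = ((6 * c0.natAbs) ^ E2 g ε k * (w ^ E2 g ε k * (j.factorial ^ E2 g ε k * j))) ^ dd := by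
        rw [← pow_mul, mul_comm dd (E2 g ε k), pow_mul, ← mul_pow]
        congr 1
        rw [mul_pow, mul_pow]
        ring
    _ ≤ ((6 * c0.natAbs) ^ E2 g ε k * (w ^ E2 g ε k * E)) ^ dd := by gcongr
    _ ≤ ((6 * c0.natAbs) ^ E2 g ε k * (7 ^ L * D2 g ε k b c d y u w)) ^ dd := by gcongr
    _ = ((6 * c0.natAbs) ^ E2 g ε k * 7 ^ L) ^ dd * D2 g ε k b c d y u w ^ dd := by
        rw [← mul_pow]; ring_nf
    _ ≤ ((6 * c0.natAbs) ^ E2 g ε k * 7 ^ L) ^ dd * (C0 g ^ dd * Δ) := by gcongr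
    _ = _ := by rw [mul_pow _ (C0 g)]; ring

theorem Fam2.main (H : Fam2 k δ ε Q c0 b c d) (g : ℕ) (hgk : 2 * k + δ = g + 1) (hg : 2 ≤ g) :
    ∃ f : ℕ → ℚ[X], ∀ (K : Type) [Field K] [NumberField K],
    (∀ j, IsHyp g ((f j).map (algebraMap ℚ K))) ∧
      ∀ c κ : ℝ, κ ≤ (E2 g ε k : ℝ) → ∀ᶠ j in atTop,
        c * (badNorm g ((f j).map (algebraMap ℚ K)) : ℝ) ^ κ <
          (discNorm g ((f j).map (algebraMap ℚ K)) : ℝ) := by
  choose y u w hy hu hw hcop hsq hwj hwT hbad h1 h2 h3 using fun j : ℕ =>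
    exists_num2 (j + 5) ((j + 5).factorial ^ E2 g ε k * (j + 5)) (by omega)
      (Nat.one_le_iff_ne_zero.mpr (by positivity))
  refine ⟨fun j => frL ℚ k δ ε Q (y j) (u j) (w j), fun K _ _ => ⟨fun j => ?_, ?_⟩⟩
  · rw [map_frL]
    exact H.isHyp hgk (hy j) (hu j) (hw j)
  · intro c' κ hκ
    set dd := Module.finrank ℚ K with hdd
    have hd1 : 1 ≤ dd := Module.finrank_pos
    set A : ℝ := ((((6 * c0.natAbs) ^ E2 g ε k * 7 ^ (a2 g k b c d + (b + (c + d))) *
      C0 g) ^ dd : ℕ) : ℝ) with hA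
    have hc0 : c0.natAbs ≠ 0 := Int.natAbs_ne_zero.mpr H.hc0
    have hA0 : 0 < A := by
      rw [hA]
      have : C0 g ≠ 0 := by unfold C0; positivity
      exact_mod_cast pow_pos (by positivity) dd
    have hev1 : ∀ᶠ j : ℕ in atTop, |c'| * A < (j : ℝ) :=
      tendsto_natCast_atTop_atTop.eventually_gt_atTop _
    filter_upwards [hev1, eventually_ge_atTop (discr K).natAbs] with j hj1 hj2
    rw [map_frL]
    have hF := H.isHyp (K := K) hgk (hy j) (hu j) (hw j)
    have hM1 := one_le_badNorm hF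
    have hcmp := H.compare (K := K) hgk hg (hy j) (hu j) (hw j) (hcop j) (hsq j) (hwj j) (hwT j)
      (hbad j) (h1 j) (h2 j) (h3 j) (by omega)
      (Nat.lt_pow_self (by norm_num : 1 < 5)).le
    rw [← hdd] at hcmp
    set N := badNorm g (frL K k δ ε Q (y j) (u j) (w j)) with hN
    set Δ := discNorm g (frL K k δ ε Q (y j) (u j) (w j)) with hΔ
    have hN1 : (1 : ℝ) ≤ (N : ℝ) := by exact_mod_cast hM1
    have hNpos : (0 : ℝ) < (N : ℝ) ^ E2 g ε k := by positivity
    have hcmp' : (j : ℝ) * (N : ℝ) ^ E2 g ε k ≤ A * Δ := by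
      have h3 : j * N ^ E2 g ε k ≤ (j + 5) ^ dd * N ^ E2 g ε k := by
        apply Nat.mul_le_mul_right
        calc j ≤ j + 5 := by omega
          _ = (j + 5) ^ 1 := (pow_one _).symm
          _ ≤ (j + 5) ^ dd := Nat.pow_le_pow_right (by omega) hd1
      have h4 := h3.trans hcmp
      rw [hA]
      exact_mod_cast h4
    have hpow : (N : ℝ) ^ κ ≤ (N : ℝ) ^ E2 g ε k := by
      rw [← Real.rpow_natCast]
      exact Real.rpow_le_rpow_of_exponent_le hN1 hκ
    have h5 : c' * (N : ℝ) ^ κ ≤ |c'| * (N : ℝ) ^ E2 g ε k := by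
      calc c' * (N : ℝ) ^ κ ≤ |c'| * (N : ℝ) ^ κ :=
            mul_le_mul_of_nonneg_right (le_abs_self c') (by positivity)
        _ ≤ _ := mul_le_mul_of_nonneg_left hpow (abs_nonneg c')
    refine h5.trans_lt ?_
    have h6 : A * (|c'| * (N : ℝ) ^ E2 g ε k) < A * Δ := by
      calc A * (|c'| * (N : ℝ) ^ E2 g ε k) = (|c'| * A) * (N : ℝ) ^ E2 g ε k := by ring
        _ < (j : ℝ) * (N : ℝ) ^ E2 g ε k := mul_lt_mul_of_pos_right hj1 hNpos
        _ ≤ A * Δ := hcmp'
    exact lt_of_mul_lt_mul_left h6 hA0.le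

end

/-- The exponent of the theorem. -/
def expo2 (g : ℕ) : ℕ := (2 * g + 1) * (g + 2 + 2 * (g % 2) + (g + 1) / 2)

/-- **The assembly.** -/
theorem main2 (hTOR : S_TOR2) (hDSTA : S_DSTA2) (hDST : S_DST2) (hFAC : S_FAC) (hTWI : S_TWI)
    (hVAL : S_VAL) (g : ℕ) (hg : 2 ≤ g) :
    ∃ f : ℕ → ℚ[X], ∀ (K : Type) [Field K] [NumberField K],
    (∀ j, IsHyp g ((f j).map (algebraMap ℚ K))) ∧
      ∀ c κ : ℝ, κ ≤ (expo2 g : ℝ) → ∀ᶠ j in atTop,
        c * (badNorm g ((f j).map (algebraMap ℚ K)) : ℝ) ^ κ <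
          (discNorm g ((f j).map (algebraMap ℚ K)) : ℝ) := by
  set k := (g + 1) / 2 with hk
  set δ := (g + 1) % 2 with hδ
  have hgk : 2 * k + δ = g + 1 := by omega
  obtain ⟨Q, hQ⟩ := hTOR k (by omega)
  obtain ⟨c0, b, c, d, hc0, hdisc⟩ := hDST k δ Q (by omega) (by omega) hQ
  have H : Fam2 k δ (g % 2) Q c0 b c d :=
    { hk := by omega
      hδ := by omega
      adm := hQ
      hc0 := hc0
      sqf := hDSTA k δ Q (by omega) (by omega) hQ
      disc := hdisc
      fac := hFAC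
      twi := hTWI
      val := hVAL }
  have he : E2 g (g % 2) k = expo2 g := by
    rw [E2, expo2, ← hk]
    ring
  rw [← he]
  exact H.main g hgk hg

end Pool.Agent.K3h74.SZ
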