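import Pool.Agent.K3h74.SZ.Stm2
import Pool.Agent.K3h40.SZ.DSTA

/-!
# The genus polynomial is squarefree (brick DSTA2; the proof is the one of brick DSTA by helper40)
-/

set_option autoImplicit false

namespace Pool.Agent.K3h74.SZ

open Polynomial Finset
open Pool.Agent.K3h40.SZ (cover_eval cover_zero cover_deriv)

theorem dsta_core (k δ : ℕ) (R : ℂ[X]) (hδ : δ ≤ 1) (hm : R.Monic) (hd : R.natDegree = k)
    (hs : R.Separable) (h1 : R.eval 1 ≠ 0) (h0 : R.eval 0 ≠ 0) :
    Squarefree ((base k δ R).comp (X ^ 2)) := by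
  -- the values of the cover
  have c0 : (cover k R).eval 0 = 1 := cover_zero k R hm hd
  have c1 : (cover k R).eval 1 ≠ 0 := by
    rw [cover_eval k R hd.le 1 one_ne_zero]
    have : ((1 : ℂ) - 1) ^ 2 / (-4 * 1) = 0 := by norm_num
    rw [this]
    exact mul_ne_zero (pow_ne_zero _ (by norm_num)) h0
  have cm : (cover k R).eval (-1) ≠ 0 := by
    rw [cover_eval k R hd.le (-1) (by norm_num)]
    have : ((-1 : ℂ) - 1) ^ 2 / (-4 * -1) = 1 := by norm_num
    rw [this]
    exact mul_ne_zero (pow_ne_zero _ (by norm_num)) h1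
  have cs : ∀ y : ℂ, (cover k R).eval y = 0 → (cover k R).derivative.eval y ≠ 0 := by
    intro y hy
    have hy0 : y ≠ 0 := by
      rintro rfl
      rw [c0] at hy
      exact one_ne_zero hy
    have hy1 : y ≠ 1 := by
      rintro rfl
      exact c1 hy
    have hym : y ≠ -1 := by
      rintro rfl
      exact cm hy
    rw [cover_eval k R hd.le y hy0] at hy
    have hU := (mul_eq_zero.1 hy).resolve_left (pow_ne_zero _ (mul_ne_zero (by norm_num) hy0))
    rw [cover_deriv k R hd.le y hy0 hU]
    refine mul_ne_zero (pow_ne_zero _ (mul_ne_zero (by norm_num) hy0)) (mul_ne_zero ?_ ?_)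
    · intro h
      have h2 := hs
      rw [separable_def] at h2
      obtain ⟨a, b, hab⟩ := h2
      have h3 := congrArg (fun p : ℂ[X] => p.eval ((y - 1) ^ 2 / (-4 * y))) hab
      simp only [eval_add, eval_mul, eval_one, hU, h, mul_zero, add_zero] at h3
      exact zero_ne_one h3
    · refine div_ne_zero (neg_ne_zero.2 ?_) (mul_ne_zero (by norm_num) (pow_ne_zero _ hy0))
      intro h
      have h2 : (y - 1) * (y + 1) = 0 := by linear_combination h
      rcases mul_eq_zero.1 h2 with h3 | h3
      · exact hy1 (sub_eq_zero.1 h3)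
      · exact hym (eq_neg_of_add_eq_zero_left h3)
  -- the base
  have bs : ∀ y : ℂ, (base k δ R).eval y = 0 →
      y ≠ 0 ∧ (base k δ R).derivative.eval y ≠ 0 := by
    intro y hy
    have hδ' : δ = 0 ∨ δ = 1 := by omega
    rcases hδ' with rfl | rfl
    · have hb : base k 0 R = cover k R := by unfold base; rw [pow_zero, one_mul]
      rw [hb] at hy ⊢
      refine ⟨?_, cs y hy⟩
      rintro rfl
      rw [c0] at hy
      exact one_ne_zero hy
    · have hb : base k 1 R = (X - 1) * cover k R := by unfold base; rw [pow_one]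
      rw [hb] at hy ⊢
      rw [eval_mul, eval_sub, eval_X, eval_one] at hy
      refine ⟨?_, ?_⟩
      · rintro rfl
        rw [c0] at hy
        norm_num at hy
      · rw [derivative_mul, derivative_sub, derivative_X, derivative_one, sub_zero, one_mul,
          eval_add, eval_mul, eval_sub, eval_X, eval_one]
        by_cases h2 : y = 1
        · subst h2
          rw [sub_self, zero_mul, add_zero]
          exact c1
        · have h3 : y - 1 ≠ 0 := sub_ne_zero.2 h2
          have h4 := (mul_eq_zero.1 hy).resolve_left h3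
          rw [h4, zero_add]
          exact mul_ne_zero h3 (cs y h4)
  apply Polynomial.Separable.squarefree
  rw [separable_def, isCoprime_iff_aeval_ne_zero_of_isAlgClosed ℂ ℂ]
  intro x
  by_cases hx : aeval x ((base k δ R).comp (X ^ 2)) = 0
  · right
    rw [coe_aeval_eq_eval, eval_comp, eval_pow, eval_X] at hx
    obtain ⟨hx0, hx1⟩ := bs _ hx
    have hx2 : x ≠ 0 := by
      rintro rfl
      exact hx0 (by norm_num)
    rw [coe_aeval_eq_eval, derivative_comp, eval_mul, eval_comp, eval_pow, eval_X]
    refine mul_ne_zero ?_ hx1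
    simp [hx2]
  · left
    exact hx

theorem t_DSTA2 : S_DSTA2 := by
  intro k δ Q hk hδ hQ s hs0 hs1 hs2
  refine dsta_core k δ _ hδ (hQ.monic.map _) (by rw [hQ.monic.natDegree_map, hQ.deg])
    (hQ.sep s hs0 hs1 hs2) (hQ.one s hs0 hs1 hs2) ?_
  rw [← coeff_zero_eq_eval_zero, coeff_map]
  rcases hQ.zero with h | h
  · rw [h, map_pow, sp_X]
    exact pow_ne_zero _ hs0
  · rw [h, map_neg, map_pow, sp_X]
    exact neg_ne_zero.2 (pow_ne_zero _ hs0)

end Pool.Agent.K3h74.SZ
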