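import Pool.Agent.Y678.SZ.Main

namespace Pool.Agent.K3h74.SZ

open Polynomial Pool.Agent.W318 Finset NumberField IsDedekindDomain WithZero

/-- Specialization `ℤ[τ] → R` at `τ = t`. -/
noncomputable def sp {R : Type*} [CommRing R] (t : R) : ℤ[X] →+* R :=
  eval₂RingHom (Int.castRingHom R) t

theorem sp_X {R : Type*} [CommRing R] (t : R) : sp t X = t := by simp [sp]

theorem sp_map {R S : Type*} [CommRing R] [CommRing S] (f : R →+* S) (t : R) :
    f.comp (sp t) = sp (f t) := by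
  apply Polynomial.ringHom_ext
  · intro a; simp
  · simp [sp]

/-- `(-4X)^k Q(-(X-1)²/(4X))` for `Q` of degree at most `k`. -/
noncomputable def cover {R : Type*} [CommRing R] (k : ℕ) (Q : R[X]) : R[X] :=
  ∑ j ∈ range (k + 1), C (Q.coeff j) * (((X - 1) ^ 2) ^ j * (-4 * X) ^ (k - j))

/-- `(X - 1)^δ` times the cover, of degree `2 k + δ`. -/
noncomputable def base {R : Type*} [CommRing R] (k δ : ℕ) (Q : R[X]) : R[X] :=
  (X - 1) ^ δ * cover k Q

/-- `w^ε y B(w x²)` -/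
noncomputable def frmB {R : Type*} [CommRing R] (ε : ℕ) (B : R[X]) (y w : R) : R[X] :=
  C (w ^ ε * y) * B.comp (C w * X ^ 2)

/-- The form of degree `2 (2 k + δ)`. -/
noncomputable abbrev frm {R : Type*} [CommRing R] (k δ ε : ℕ) (Q : R[X]) (y w : R) : R[X] :=
  frmB ε (base k δ Q) y w

theorem cover_map {R S : Type*} [CommRing R] [CommRing S] (f : R →+* S) (k : ℕ) (Q : R[X]) :
    (cover k Q).map f = cover k (Q.map f) := by
  simp [cover, Polynomial.map_sum]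

theorem base_map {R S : Type*} [CommRing R] [CommRing S] (f : R →+* S) (k δ : ℕ) (Q : R[X]) :
    (base k δ Q).map f = base k δ (Q.map f) := by
  simp [base, cover_map]

theorem frmB_map {R S : Type*} [CommRing R] [CommRing S] (f : R →+* S) (ε : ℕ) (B : R[X])
    (y w : R) : (frmB ε B y w).map f = frmB ε (B.map f) (f y) (f w) := by
  simp [frmB, Polynomial.map_comp]

theorem cover_monic_deg {R : Type*} [CommRing R] [Nontrivial R] (k : ℕ) (Q : R[X])
    (hQ : Q.Monic) (hd : Q.natDegree = k) : (cover k Q).Monic ∧ (cover k Q).natDegree = 2 * k := by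
  have hm : (((X - 1 : R[X]) ^ 2) ^ k).Monic := by
    have : (X - 1 : R[X]).Monic := by simpa using monic_X_sub_C (1 : R)
    exact (this.pow 2).pow k
  have hdm : (((X - 1 : R[X]) ^ 2) ^ k).natDegree = 2 * k := by
    have h1 : (X - 1 : R[X]).Monic := by simpa using monic_X_sub_C (1 : R)
    have h2 : (X - 1 : R[X]).natDegree = 1 := by simpa using natDegree_X_sub_C (1 : R)
    rw [← pow_mul, h1.natDegree_pow, h2, mul_one]
  have hlt : (∑ j ∈ range k, C (Q.coeff j) * (((X - 1) ^ 2) ^ j * (-4 * X) ^ (k - j)) :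
      R[X]).degree < (((X - 1 : R[X]) ^ 2) ^ k).degree := by
    rw [degree_eq_natDegree hm.ne_zero, hdm]
    refine (degree_sum_le _ _).trans_lt ?_
    rw [Finset.sup_lt_iff (by exact_mod_cast WithBot.bot_lt_coe (2 * k))]
    intro j hj
    rw [mem_range] at hj
    have h1 : (X - 1 : R[X]).natDegree ≤ 1 := by
      have := natDegree_X_sub_C (1 : R)
      simpa using this.le
    have h2 : ((-4 * X : R[X])).natDegree ≤ 1 := by
      have : (-4 * X : R[X]) = C (-4) * X := by rw [C_neg, map_ofNat]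
      rw [this]
      exact (natDegree_C_mul_le _ _).trans natDegree_X_le
    have h3 : (C (Q.coeff j) * (((X - 1) ^ 2) ^ j * (-4 * X) ^ (k - j)) : R[X]).natDegree ≤
        k + j := by
      refine (natDegree_C_mul_le _ _).trans (natDegree_mul_le.trans ?_)
      have h4 : (((X - 1 : R[X]) ^ 2) ^ j).natDegree ≤ 2 * j := by
        rw [← pow_mul]
        exact natDegree_pow_le.trans (by nlinarith)
      have h5 : ((-4 * X : R[X]) ^ (k - j)).natDegree ≤ k - j :=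
        natDegree_pow_le.trans (by nlinarith)
      omega
    refine (degree_le_natDegree).trans_lt (Nat.cast_lt.mpr ?_)
    omega
  have he : cover k Q = (∑ j ∈ range k, C (Q.coeff j) * (((X - 1) ^ 2) ^ j *
      (-4 * X) ^ (k - j))) + ((X - 1 : R[X]) ^ 2) ^ k := by
    rw [cover, sum_range_succ]
    have : Q.coeff k = 1 := by rw [← hd]; exact hQ
    rw [this]
    simp
  rw [he]
  refine ⟨hm.add_of_right hlt, ?_⟩
  rw [natDegree_add_eq_right_of_degree_lt hlt, hdm]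

theorem base_monic {R : Type*} [CommRing R] [Nontrivial R] (k δ : ℕ) (Q : R[X])
    (hQ : Q.Monic) (hd : Q.natDegree = k) : (base k δ Q).Monic := by
  have : (X - 1 : R[X]).Monic := by simpa using monic_X_sub_C (1 : R)
  exact (this.pow δ).mul (cover_monic_deg k Q hQ hd).1

theorem base_natDegree {R : Type*} [CommRing R] [Nontrivial R] (k δ : ℕ) (Q : R[X])
    (hQ : Q.Monic) (hd : Q.natDegree = k) : (base k δ Q).natDegree = 2 * k + δ := by
  have h1 : (X - 1 : R[X]).Monic := by simpa using monic_X_sub_C (1 : R)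
  have h2 : (X - 1 : R[X]).natDegree = 1 := by simpa using natDegree_X_sub_C (1 : R)
  rw [base, (h1.pow δ).natDegree_mul (cover_monic_deg k Q hQ hd).1, h1.natDegree_pow, h2,
    (cover_monic_deg k Q hQ hd).2]
  ring

/-- Admissible families. -/
structure Adm (k e : ℕ) (Q : ℤ[X][X]) : Prop where
  monic : Q.Monic
  deg : Q.natDegree = k
  zero : Q.coeff 0 = X ^ e ∨ Q.coeff 0 = -X ^ e
  sep : ∀ t : ℂ, t ≠ 0 → t ≠ 1 → (Q.map (sp t)).Separable
  one : ∀ t : ℂ, t ≠ 0 → t ≠ 1 → (Q.map (sp t)).eval 1 ≠ 0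

/-- Good families of even degree. -/
structure Good (m : ℕ) (R : ℤ[X][X]) : Prop where
  monic : R.Monic
  deg : R.natDegree = 2 * m
  zero : R.coeff 0 = X ^ m ∨ R.coeff 0 = -X ^ m
  simple : ∀ t : ℂ, t ≠ 0 → t ≠ 1 → ∀ x : ℂ, (R.map (sp t)).eval x = 0 →
    (R.map (sp t)).derivative.eval x ≠ 0
  ne0 : ∀ t : ℂ, t ≠ 0 → t ≠ 1 → (R.map (sp t)).eval 0 ≠ 0
  ne1 : ∀ t : ℂ, t ≠ 0 → t ≠ 1 → (R.map (sp t)).eval 1 ≠ 0
  net : ∀ t : ℂ, t ≠ 0 → t ≠ 1 → (R.map (sp t)).eval t ≠ 0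

/-- numerator and denominator of the duplication map of the Legendre curve -/
noncomputable def numP : ℤ[X][X] := (X ^ 2 - C X) ^ 2

/-- see `numP` -/
noncomputable def denP : ℤ[X][X] := 4 * (X * (X - 1) * (X - C X))

/-- `den^d R(num/den)` for `R` of degree at most `d` -/
noncomputable def homP (d : ℕ) (R : ℤ[X][X]) : ℤ[X][X] :=
  ∑ j ∈ range (d + 1), C (R.coeff j) * (numP ^ j * denP ^ (d - j))

/-- Brick TORH: pulling back by the duplication map. -/
def S_TORH : Prop := ∀ (m : ℕ) (R : ℤ[X][X]), Good m R → Good (4 * m) (homP (2 * m) R) ∧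
  ∀ t : ℂ, t ≠ 0 → t ≠ 1 → ∀ x : ℂ, (x ^ 2 = t ∨ x ^ 2 - 2 * x + t = 0 ∨
    x ^ 2 - 2 * t * x + t = 0) → ((homP (2 * m) R).map (sp t)).eval x ≠ 0

/-- Brick TORA (proved from `S_TORH`): admissible families exist. -/
def S_TOR : Prop := ∀ k : ℕ, 1 ≤ k → ∃ Q : ℤ[X][X], Adm k ((k + 1) / 2) Q

/-- Brick DSTA: the polynomial `(X² - 1)^δ cover(X²)` is squarefree at every `t ≠ 0, 1`. -/
def S_DSTA : Prop := ∀ (k δ e : ℕ) (Q : ℤ[X][X]), 1 ≤ k → δ ≤ 1 → Adm k e Q →
  ∀ t : ℂ, t ≠ 0 → t ≠ 1 → Squarefree ((base k δ (Q.map (sp t))).comp (X ^ 2))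

/-- Brick DSTB (proved from `S_DSTA`): its discriminant. -/
def S_DST : Prop := ∀ (k δ e : ℕ) (Q : ℤ[X][X]), 1 ≤ k → δ ≤ 1 → Adm k e Q →
  ∃ (c0 : ℤ) (b c : ℕ), c0 ≠ 0 ∧ ∀ (F : Type) [Field F] [CharZero F] (t : F),
    ((base k δ (Q.map (sp t))).comp (X ^ 2)).discr = c0 * (t ^ b * (t - 1) ^ c)

/-- Brick FAC: the untwisted places. -/
def S_FAC : Prop := ∀ (K : Type) [Field K] [NumberField K] (v : HeightOneSpectrum (𝓞 K))
  (k δ ε : ℕ) (Q : K[X]) (y w : K), 1 ≤ k → δ ≤ 1 → Q.Monic → Q.natDegree = k →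
  Squarefree ((base k δ Q).comp (X ^ 2)) → y ≠ 0 → v.valuation K w = 1 →
  (1 ≤ v.valuation K y ∨ 1 ≤ v.valuation K (y * Q.coeff 0)) →
  ∀ a b c d l : K, a * d - b * c ≠ 0 → l ≠ 0 →
  (∀ i, v.valuation K ((C (l ^ 2) * act (2 * k + δ + (2 * k + δ)) a b c d
    (frm k δ ε Q y w)).coeff i) ≤ 1) →
  v.valuation K (discN (2 * k + δ + (2 * k + δ)) (C (l ^ 2) *
      act (2 * k + δ + (2 * k + δ)) a b c d (frm k δ ε Q y w)) *
    (16 ^ (2 * k + δ)) ^ (2 * (2 * k + δ + (2 * k + δ) - 1))) ≤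
  v.valuation K (discN (2 * k + δ + (2 * k + δ)) (frm k δ ε Q y w))

/-- Brick TWI: the twisted places. -/
def S_TWI : Prop := ∀ (K : Type) [Field K] [NumberField K] (v : HeightOneSpectrum (𝓞 K))
  (k δ ε : ℕ) (Q : K[X]) (y w : K), 1 ≤ k → δ + ε = 1 → Q.Monic → Q.natDegree = k →
  (∀ i, v.valuation K (Q.coeff i) ≤ 1) → v.valuation K y = 1 → v.valuation K w = exp (-1) →
  ∀ a b c d l : K, a * d - b * c ≠ 0 → l ≠ 0 →
  (∀ i, v.valuation K ((C (l ^ 2) * act (2 * k + δ + (2 * k + δ)) a b c d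
    (frm k δ ε Q y w)).coeff i) ≤ 1) →
  v.valuation K (l ^ 2 * (a * d - b * c) ^ (2 * k + δ)) ≤ 1

/-- Brick VAL: the discriminant of the form. -/
def S_VAL : Prop := ∀ (K : Type) [Field K] [NumberField K] (v : HeightOneSpectrum (𝓞 K))
  (h ε : ℕ) (B : K[X]) (y w : K), 2 ≤ h → B.Monic → B.natDegree = h → y ≠ 0 → w ≠ 0 →
  Squarefree (B.comp (X ^ 2)) →
  GoodForm h (frmB ε B y w) ∧ (frmB ε B y w).natDegree = h + h ∧
  v.valuation K (discN (h + h) (frmB ε B y w)) =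
    v.valuation K (w ^ ((h + h - 1) * (2 * ε + h)) * y ^ (2 * (h + h - 1)) *
      (B.comp (X ^ 2)).discr)

end Pool.Agent.K3h74.SZ
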