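import Pool.Agent.K3h74.SZ.Stm

/-!
Second version of the families: the parameter is `s`, and the Legendre parameter is `t = s²`.
The excluded values are `s = 0, 1, -1`.
-/

namespace Pool.Agent.K3h74.SZ

open Polynomial

/-- Admissible families with parameter `s`. -/
structure Adm2 (k : ℕ) (Q : ℤ[X][X]) : Prop where
  monic : Q.Monic
  deg : Q.natDegree = k
  zero : Q.coeff 0 = X ^ (k + 1) ∨ Q.coeff 0 = -X ^ (k + 1)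
  sep : ∀ s : ℂ, s ≠ 0 → s ≠ 1 → s ≠ -1 → (Q.map (sp s)).Separable
  one : ∀ s : ℂ, s ≠ 0 → s ≠ 1 → s ≠ -1 → (Q.map (sp s)).eval 1 ≠ 0

/-- Good families with parameter `s`. -/
structure Good2 (n : ℕ) (R : ℤ[X][X]) : Prop where
  monic : R.Monic
  deg : R.natDegree = n
  zero : R.coeff 0 = X ^ n ∨ R.coeff 0 = -X ^ n
  simple : ∀ s : ℂ, s ≠ 0 → s ≠ 1 → s ≠ -1 → ∀ x : ℂ, (R.map (sp s)).eval x = 0 →
    (R.map (sp s)).derivative.eval x ≠ 0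
  ne0 : ∀ s : ℂ, s ≠ 0 → s ≠ 1 → s ≠ -1 → (R.map (sp s)).eval 0 ≠ 0
  ne1 : ∀ s : ℂ, s ≠ 0 → s ≠ 1 → s ≠ -1 → (R.map (sp s)).eval 1 ≠ 0
  net : ∀ s : ℂ, s ≠ 0 → s ≠ 1 → s ≠ -1 → (R.map (sp s)).eval (s ^ 2) ≠ 0

/-- numerator of the duplication map of the Legendre curve with parameter `s²` -/
noncomputable def numP2 : ℤ[X][X] := (X ^ 2 - C (X ^ 2)) ^ 2

/-- its denominator -/
noncomputable def denP2 : ℤ[X][X] := 4 * (X * (X - 1) * (X - C (X ^ 2)))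

/-- `den^d R(num/den)` for `R` of degree at most `d` -/
noncomputable def homP2 (d : ℕ) (R : ℤ[X][X]) : ℤ[X][X] :=
  ∑ j ∈ Finset.range (d + 1), C (R.coeff j) * (numP2 ^ j * denP2 ^ (d - j))

/-- Brick TORH2. -/
def S_TORH2 : Prop := ∀ (n : ℕ) (R : ℤ[X][X]), Good2 n R → Good2 (4 * n) (homP2 n R) ∧
  ∀ s : ℂ, s ≠ 0 → s ≠ 1 → s ≠ -1 → ∀ x : ℂ, (x = s ∨ x ^ 2 - 2 * x + s ^ 2 = 0) →
    ((homP2 n R).map (sp s)).eval x ≠ 0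

/-- Brick TORA2 (proved from `S_TORH2`). -/
def S_TOR2 : Prop := ∀ k : ℕ, 1 ≤ k → ∃ Q : ℤ[X][X], Adm2 k Q

/-- Brick DSTA2. -/
def S_DSTA2 : Prop := ∀ (k δ : ℕ) (Q : ℤ[X][X]), 1 ≤ k → δ ≤ 1 → Adm2 k Q →
  ∀ s : ℂ, s ≠ 0 → s ≠ 1 → s ≠ -1 → Squarefree ((base k δ (Q.map (sp s))).comp (X ^ 2))

/-- Brick DSTB2 (proved from `S_DSTA2`). -/
def S_DST2 : Prop := ∀ (k δ : ℕ) (Q : ℤ[X][X]), 1 ≤ k → δ ≤ 1 → Adm2 k Q →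
  ∃ (c0 : ℤ) (b c d : ℕ), c0 ≠ 0 ∧ ∀ (F : Type) [Field F] [CharZero F] (s : F),
    ((base k δ (Q.map (sp s))).comp (X ^ 2)).discr =
      c0 * (s ^ b * ((s - 1) ^ c * (s + 1) ^ d))

end Pool.Agent.K3h74.SZ
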